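import Pool.Agent.U810.GI.Smooth

set_option autoImplicit false

/-! The final theorem for grouped vectors. -/

namespace Pool.Agent.U810.GI

open MvPolynomial Finset Pool.Agent.H248R5 Pool.Agent.H248R6 Pool.Agent.H932R3
  Pool.Agent.TH442.NF Pool.Agent.Y939.NC Pool.Agent.U810.IR

theorem exists_of_general {K : Type} [Field K] [CharZero K] {V : Submodule K (MvPolynomial (Fin 3) K)}
    [FiniteDimensional K V] {p : MvPolynomial (Fin 3) K → Prop} (h : GeneralMember V p) :
    ∃ G ∈ V, p G := by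
  classical
  obtain ⟨Φ, hΦ, h1⟩ := h _ (Module.finBasis K V)
  obtain ⟨t, ht⟩ : ∃ t, eval t Φ ≠ 0 := by
    by_contra hcon
    push Not at hcon
    exact hΦ (MvPolynomial.funext fun t => by rw [hcon t, map_zero])
  exact ⟨_, Submodule.sum_mem _ fun j _ => Submodule.smul_mem _ _ (Module.finBasis K V j).2, h1 t ht⟩

/-- **Theorem.** -/
theorem grouped_all {n d : ℕ} {v : Fin n → ℕ} (hv : Grouped v) {K : Type} [Field K] [CharZero K]
    [IsAlgClosed K] :
    ∃ F : MvPolynomial (Fin n × Fin 2) ℚ, F ≠ 0 ∧ ∀ P : Fin n → Fin 2 → K,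
      aeval (fun ij : Fin n × Fin 2 => P ij.1 ij.2) F ≠ 0 →
      Module.finrank K ↥(forms v P d) = (d + 2).choose 2 - ∑ i, (v i + 1).choose 2 ∧
      (∑ i, (v i + 1).choose 2 < (d + 2).choose 2 → GeneralMember (forms v P d) Squarefree) ∧
      (∑ i, (v i + 1).choose 2 + 2 ≤ (d + 2).choose 2 → ∀ u : Fin n → ℕ, (∀ i, u i ≤ v i) →
        Module.finrank K ↥(forms u P d) + ∑ i, (u i + 1).choose 2 = (d + 2).choose 2 ∧
        (∀ g : MvPolynomial (Fin 3) K, (∀ G ∈ forms u P d, g ∣ G) → IsUnit g) ∧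
        GeneralMember (forms u P d) Irreducible ∧
        (n ≠ 21 → (∀ i, ∑ j, (v j + 1).choose 2 + v i < (d + 2).choose 2) →
          GeneralMember (forms u P d) fun G => Irreducible G ∧ SmoothMember u P G)) := by
  classical
  obtain ⟨F1, hF1, h1⟩ := exp_open v d fun k hk e {K} _ _ P hP => grouped_exp hv k hk e hP
  obtain ⟨F2, hF2, h2⟩ := sy_open n d
  obtain ⟨F3, hF3, h3⟩ := to_open (d := d) (w := v) fun {K} _ _ P hP =>
    grouped_exp hv v (fun i j h => h) d hP
  obtain ⟨F4, hF4, h4⟩ : ∃ F : MvPolynomial (Fin n × Fin 2) ℚ, F ≠ 0 ∧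
      (n ≠ 21 → ∑ i, (v i + 1).choose 2 + 2 ≤ (d + 2).choose 2 →
        (∀ i, ∑ j, (v j + 1).choose 2 + v i < (d + 2).choose 2) → ∀ P : Fin n → Fin 2 → K,
        aeval (fun ij : Fin n × Fin 2 => P ij.1 ij.2) F ≠ 0 → ∀ u : Fin n → ℕ, (∀ i, u i ≤ v i) →
        GeneralMember (forms u P d) (SmoothMember u P)) := by
    by_cases hc : n ≠ 21 ∧ ∑ i, (v i + 1).choose 2 + 2 ≤ (d + 2).choose 2 ∧
        ∀ i, ∑ j, (v j + 1).choose 2 + v i < (d + 2).choose 2
    · obtain ⟨c1, c2, c3⟩ := hc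
      obtain ⟨e, rfl⟩ : ∃ e, d = e + 1 := by
        refine ⟨d - 1, ?_⟩
        rcases Nat.eq_zero_or_pos d with h0 | h0
        · subst h0
          have : (0 + 2).choose 2 = 1 := rfl
          omega
        · omega
      obtain ⟨F, hF, hF'⟩ := grouped_smooth (K := K) c1 hv (e := e) c3
      exact ⟨F, hF, fun _ _ _ P hP u hu => (hF' P hP u hu).2⟩
    · exact ⟨1, one_ne_zero, fun a1 a2 a3 => absurd ⟨a1, a2, a3⟩ hc⟩
  refine ⟨F1 * F2 * F3 * F4, mul_ne_zero (mul_ne_zero (mul_ne_zero hF1 hF2) hF3) hF4,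
    fun P hP => ?_⟩
  rw [map_mul, map_mul, map_mul] at hP
  have k4 := right_ne_zero_of_mul hP
  have k3 := right_ne_zero_of_mul (left_ne_zero_of_mul hP)
  have k2 := right_ne_zero_of_mul (left_ne_zero_of_mul (left_ne_zero_of_mul hP))
  have k1 := left_ne_zero_of_mul (left_ne_zero_of_mul (left_ne_zero_of_mul hP))
  have g1 := h1 K P k1
  have g2 := h2 K P k2
  have g3 : Module.finrank K ↥(forms v P d) = (d + 2).choose 2 - ∑ i, (v i + 1).choose 2 :=
    h3 (L := K) P k3
  refine ⟨g3, fun hd => ?_, fun hd u hu => ?_⟩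
  · exact general_sqf (π := v) (fun i j h => h) (grouped_ten hv) g1 g2 (by omega)
  · obtain ⟨c1, c2⟩ := general_sym (π := v) (fun i j h => h) (grouped_ten hv) g1 g2 (by omega)
    have hsub : forms v P d ≤ forms u P d := by
      intro G hG
      rw [mem_forms] at hG ⊢
      exact ⟨hG.1, fun i => Ideal.pow_le_pow_right (hu i) (hG.2 i)⟩
    have hirr : GeneralMember (forms u P d) Irreducible := by
      have hfin := forms_finite v P d
      obtain ⟨G, hG, hG'⟩ := exists_of_general c2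
      exact general_of_one (hsub hG) hG'
    refine ⟨?_, fun g hg => c1 g fun G hG => hg G (hsub hG), hirr, fun hn hs => ?_⟩
    · exact finrank_of_surj (surj_of (h3 (L := K) P k3) (by omega) hu)
    · exact general_and hirr (h4 hn hd hs P k4 u hu)

end Pool.Agent.U810.GI
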