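import Pool.Agent.U810.GI.Prim

set_option autoImplicit false

/-! The generic member of a symmetric nonspecial linear system without a common factor has no
factorization over the algebraic closure. -/

namespace Pool.Agent.U810.GI

open MvPolynomial Pool.Agent.H248R5 Pool.Agent.H248R6 Pool.Agent.U810.IR

/-- constant on the groups -/
def Gc {n : ℕ} (π k : Fin n → ℕ) : Prop := ∀ i j, π i = π j → k i = k j

/-- positive self-intersection -/
theorem pos {n e : ℕ} {k : Fin n → ℕ} (h10 : ∀ i, 10 * k i ≤ ∑ j, k j) (he : 1 ≤ e)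
    (hχ : ∑ i, (k i + 1).choose 2 + 1 ≤ (e + 2).choose 2) : ∑ i, k i * k i < e * e := by
  by_contra hcon
  push Not at hcon
  have h1 := tri e
  have h2 : 2 * ((∑ i, (k i + 1).choose 2 : ℕ) : ℤ) = ∑ i, (k i : ℤ) * k i + ∑ i, (k i : ℤ) := by
    push_cast
    rw [Finset.mul_sum, ← Finset.sum_add_distrib]
    refine Finset.sum_congr rfl fun i _ => ?_
    rw [tri1]
    ring
  have h3 : ((∑ i, (k i + 1).choose 2 : ℕ) : ℤ) + 1 ≤ ((e + 2).choose 2 : ℤ) := by exact_mod_cast hχ
  have h4 : (e : ℤ) * e ≤ ∑ i, (k i : ℤ) * k i := by exact_mod_cast hcon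
  have h5 : ∑ i, (k i : ℤ) ≤ 3 * e := by nlinarith
  have h6 : 10 * ∑ i, (k i : ℤ) * k i ≤ (∑ j, (k j : ℤ)) * ∑ i, (k i : ℤ) := by
    rw [Finset.mul_sum, Finset.mul_sum]
    refine Finset.sum_le_sum fun i _ => ?_
    have h7 : 10 * (k i : ℤ) ≤ ∑ j, (k j : ℤ) := by exact_mod_cast h10 i
    calc 10 * ((k i : ℤ) * k i) = (10 * (k i : ℤ)) * k i := by ring
      _ ≤ (∑ j, (k j : ℤ)) * k i := mul_le_mul_of_nonneg_right h7 (by positivity)
  have h8 : (0 : ℤ) ≤ ∑ i, (k i : ℤ) := Finset.sum_nonneg fun i _ => by positivity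
  have h9 : (∑ j, (k j : ℤ)) * ∑ i, (k i : ℤ) ≤ (3 * e) * (3 * e) :=
    mul_le_mul h5 h5 h8 (by positivity)
  have h10' : (1 : ℤ) ≤ e := by exact_mod_cast he
  nlinarith

/-- the reversed Cauchy inequality -/
theorem cross {n a b : ℕ} {u v : Fin n → ℕ} (ha : ∑ i, u i * u i < a * a)
    (hb : ∑ i, v i * v i < b * b) : ∑ i, u i * v i < a * b := by
  have h1 := Finset.sum_mul_sq_le_sq_mul_sq Finset.univ (fun i => (u i : ℝ)) (fun i => (v i : ℝ))
  have h2 : (∑ i, (u i : ℝ) ^ 2) < (a : ℝ) * a := by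
    have : ((∑ i, u i * u i : ℕ) : ℝ) < ((a * a : ℕ) : ℝ) := by exact_mod_cast ha
    push_cast at this
    simpa only [sq] using this
  have h3 : (∑ i, (v i : ℝ) ^ 2) < (b : ℝ) * b := by
    have : ((∑ i, v i * v i : ℕ) : ℝ) < ((b * b : ℕ) : ℝ) := by exact_mod_cast hb
    push_cast at this
    simpa only [sq] using this
  have h4 : (∑ i, (u i : ℝ) * (v i : ℝ)) ^ 2 < ((a : ℝ) * b) ^ 2 := by
    calc (∑ i, (u i : ℝ) * (v i : ℝ)) ^ 2 ≤ (∑ i, (u i : ℝ) ^ 2) * ∑ i, (v i : ℝ) ^ 2 := h1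
      _ < ((a : ℝ) * a) * ((b : ℝ) * b) := by
        have hn1 : (0 : ℝ) ≤ ∑ i, (u i : ℝ) ^ 2 := Finset.sum_nonneg fun i _ => by positivity
        have hn2 : (0 : ℝ) ≤ ∑ i, (v i : ℝ) ^ 2 := Finset.sum_nonneg fun i _ => by positivity
        exact mul_lt_mul'' h2 h3 hn1 hn2
      _ = ((a : ℝ) * b) ^ 2 := by ring
  have h5 : ∑ i, (u i : ℝ) * (v i : ℝ) < (a : ℝ) * b := lt_of_pow_lt_pow_left₀ 2 (by positivity) h4
  exact_mod_cast h5

theorem mu_le {L : Type*} [Field L] {n : ℕ} (P : Fin n → Fin 2 → L) {A : MvPolynomial (Fin 3) L}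
    {a : ℕ} (hA : A.IsHomogeneous a) (hA0 : A ≠ 0) (i : Fin n) : mu P A i ≤ a := by
  have hH : (H932R2.tr (P i 0) (P i 1) A).IsHomogeneous a := H932R2.tr_homog hA
  have hH0 : H932R2.tr (P i 0) (P i 1) A ≠ 0 := by
    intro h1
    have h2 := H932R2.tr_tr (P i 0) (P i 1) A
    rw [h1, map_zero] at h2
    exact hA0 h2.symm
  obtain ⟨α, hα⟩ := MvPolynomial.ne_zero_iff.1 hH0
  have h2 := coeff_dh hH hα
  rw [dh_tr] at h2
  have h3 := H932R2.sum_eq_of_homog hH hα
  have h4 := coe_mu P hA hA0 i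
  have h5 : ord (tau (P i) A) ≤ ((α 0 + α 1 : ℕ) : ℕ∞) := by
    have h6 := MvPowerSeries.order_le (f := (tau (P i) A : MvPowerSeries (Fin 2) L))
      (d := Finsupp.equivFunOnFinite.symm ![α 0, α 1]) (by
        rw [MvPolynomial.coeff_coe, h2]
        exact hα)
    have h7 : (Finsupp.equivFunOnFinite.symm ![α 0, α 1] : Fin 2 →₀ ℕ).degree = α 0 + α 1 := by
      rw [Finsupp.degree_eq_sum, Fin.sum_univ_two]
      simp
    rw [h7] at h6
    exact h6
  rw [← h4] at h5
  have h6 : mu P A i ≤ α 0 + α 1 := by exact_mod_cast h5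
  omega

/-- numerical consequence of a decomposition -/
theorem num_fact {n a b : ℕ} {u u' : Fin n → ℕ} {f1 f2 N : ℕ}
    (h1 : f1 + ∑ i, (u' i + 1).choose 2 = (b + 2).choose 2)
    (h2 : f2 + ∑ i, (u i + 1).choose 2 = (a + 2).choose 2)
    (h3 : N + ∑ i, (u i + u' i + 1).choose 2 = (a + b + 2).choose 2) (h4 : N + 1 ≤ f1 + f2) :
    a * b ≤ ∑ i, u i * u' i := by
  zify at *
  have t1 := tri b
  have t2 := tri a
  have t3 := tri (a + b)
  push_cast at *
  have hs : ∑ i, (2 * ((u i + u' i + 1).choose 2 : ℤ)) = ∑ i, 2 * ((u i + 1).choose 2 : ℤ) +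
      ∑ i, 2 * ((u' i + 1).choose 2 : ℤ) + 2 * ∑ i, (u i : ℤ) * u' i := by
    rw [Finset.mul_sum, ← Finset.sum_add_distrib, ← Finset.sum_add_distrib]
    refine Finset.sum_congr rfl fun i _ => ?_
    rw [tri1 (u i), tri1 (u' i), tri1 (u i + u' i)]
    push_cast
    ring
  rw [← Finset.mul_sum, ← Finset.mul_sum, ← Finset.mul_sum] at hs
  nlinarith

/-- symmetric multiplicities -/
theorem sym {K : Type*} [Field K] {n : ℕ} {π v w : Fin n → ℕ} (hv : Gc π v)
    {P : Fin n → Fin 2 → K} {d : ℕ} (hvw : ∀ i, v i ≤ w i) (heq : forms v P d ≤ forms w P d)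
    (hmax : ∀ w' : Fin n → ℕ, forms v P d ≤ forms w' P d → ∀ i, w' i ≤ w i)
    (hperm : ∀ σ : Equiv.Perm (Fin n), Module.finrank K ↥(forms (fun i => w (σ i)) P d) =
      Module.finrank K ↥(forms w P d)) : Gc π w := by
  classical
  have hfin := forms_finite v P d
  have key : ∀ i j, π i = π j → w j ≤ w i := by
    intro i j hij
    have hvσ : ∀ x, v (Equiv.swap i j x) = v x := by
      intro x
      rcases eq_or_ne x i with rfl | hx
      · rw [Equiv.swap_apply_left]
        exact hv _ _ hij.symm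
      · rcases eq_or_ne x j with rfl | hx'
        · rw [Equiv.swap_apply_right]
          exact hv _ _ hij
        · rw [Equiv.swap_apply_of_ne_of_ne hx hx']
    have h1 : forms (fun x => w (Equiv.swap i j x)) P d ≤ forms v P d := by
      intro G hG
      refine forms_anti (fun x => ?_) hG
      rw [← hvσ x]
      exact hvw _
    have h2 : forms w P d = forms v P d :=
      le_antisymm (fun G hG => forms_anti hvw hG) heq
    have h3 : forms (fun x => w (Equiv.swap i j x)) P d = forms v P d := by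
      refine Submodule.eq_of_le_of_finrank_eq h1 ?_
      rw [hperm, h2]
    have h4 := hmax _ h3.ge i
    simp only [Equiv.swap_apply_left] at h4
    exact h4
  exact fun i j hij => le_antisymm (key j i hij.symm) (key i j hij)

/-- all members lie in the ideal of two factors of the generic member -/
theorem hall {K : Type} [Field K] [CharZero K] {n : ℕ} {w : Fin n → ℕ} {P : Fin n → Fin 2 → K}
    {d N : ℕ} (b : Module.Basis (Fin N) K ↥(forms w P d)) {L : Type} [Field L] [Algebra K L]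
    (hN : Module.finrank L ↥(forms w (fun i a => algebraMap K L (P i a)) d) = N)
    (t : Fin N → L) (D : Fin N → Derivation K L L)
    (hD : ∀ i j, D i (t j) = if i = j then 1 else 0) {A B : MvPolynomial (Fin 3) L} {a a' : ℕ}
    {u u' : Fin n → ℕ} (hAm : A ∈ forms u (fun i a => algebraMap K L (P i a)) a)
    (hBm : B ∈ forms u' (fun i a => algebraMap K L (P i a)) a')
    (hG : A * B = ∑ j, t j • MvPolynomial.map (algebraMap K L) (b j : MvPolynomial (Fin 3) K)) :
    ∀ F ∈ forms w (fun i a => algebraMap K L (P i a)) d,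
      ∃ S ∈ forms u' (fun i a => algebraMap K L (P i a)) a',
        ∃ T ∈ forms u (fun i a => algebraMap K L (P i a)) a, F = A * S + B * T := by
  classical
  have hchar : CharZero L := charZero_of_injective_algebraMap (algebraMap K L).injective
  obtain ⟨D', hD'⟩ : ∃ D' : Fin N → Derivation ℚ L L, ∀ i x, D' i x = D i x :=
    ⟨fun i => (D i).restrictScalars ℚ, fun i x => rfl⟩
  have hDK : ∀ i (x : K), D' i (algebraMap K L x) = 0 := by
    intro i x
    rw [hD', Derivation.map_algebraMap]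
  have hder : ∀ j, MvPolynomial.map (algebraMap K L) (b j : MvPolynomial (Fin 3) K) =
      A * dG (D' j) B + B * dG (D' j) A := by
    intro j
    have e1 : dG (D' j) (A * B) = A * dG (D' j) B + B * dG (D' j) A := by
      rw [dG_mul]
      ring
    rw [← e1, hG]
    ext s
    rw [coeff_dG, coeff_map, coeff_sum, map_sum]
    have e2 : ∀ i, D' j (coeff s (t i • MvPolynomial.map (algebraMap K L)
        (b i : MvPolynomial (Fin 3) K))) =
        if j = i then algebraMap K L (coeff s (b i : MvPolynomial (Fin 3) K)) else 0 := by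
      intro i
      rw [coeff_smul, coeff_map, smul_eq_mul, Derivation.leibniz, hDK, smul_zero, zero_add, hD',
        hD, smul_eq_mul]
      split_ifs <;> simp
    rw [Finset.sum_congr rfl fun i _ => e2 i, Finset.sum_ite_eq]
    simp
  intro F hF
  obtain ⟨x, hx⟩ := span_forms b hN hF
  refine ⟨∑ j, x j • dG (D' j) B, Submodule.sum_mem _ fun j _ => Submodule.smul_mem _ _
    (dG_forms _ (hDK j) hBm), ∑ j, x j • dG (D' j) A, Submodule.sum_mem _ fun j _ =>
    Submodule.smul_mem _ _ (dG_forms _ (hDK j) hAm), ?_⟩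
  rw [hx, Finset.mul_sum, Finset.mul_sum, ← Finset.sum_add_distrib]
  refine Finset.sum_congr rfl fun j _ => ?_
  rw [hder j, smul_add, mul_smul_comm, mul_smul_comm]

/-- dimension count -/
theorem dim_fact {L : Type*} [Field L] {n : ℕ} {w u u' : Fin n → ℕ} {P : Fin n → Fin 2 → L}
    {a b d : ℕ} {A B : MvPolynomial (Fin 3) L} (hA : A ∈ forms u P a) (hB : B ∈ forms u' P b)
    (hB0 : B ≠ 0) (h0 : ∀ F ∈ forms w P d,
      ∃ S ∈ forms u' P b, ∃ T ∈ forms u P a, F = A * S + B * T) :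
    Module.finrank L ↥(forms w P d) + 1 ≤
      Module.finrank L ↥(forms u' P b) + Module.finrank L ↥(forms u P a) := by
  have f1 := forms_finite u' P b
  have f2 := forms_finite u P a
  have f3 := forms_finite w P d
  obtain ⟨φ, hφ⟩ : ∃ φ, φ = pencil u u' P a b A B := ⟨_, rfl⟩
  have hle : forms w P d ≤ LinearMap.range φ := by
    intro F hF
    obtain ⟨S, hS, T, hT, hST⟩ := h0 F hF
    refine ⟨(⟨S, hS⟩, ⟨T, hT⟩), ?_⟩
    rw [hφ, pencil_apply]
    exact hST.symm
  have r1 := LinearMap.finrank_range_add_finrank_ker φ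
  rw [Module.finrank_prod] at r1
  have r2 : Module.finrank L ↥(forms w P d) ≤ Module.finrank L ↥(LinearMap.range φ) :=
    Submodule.finrank_mono hle
  have r3 : 1 ≤ Module.finrank L ↥(LinearMap.ker φ) := by
    have hker : ((⟨B, hB⟩, ⟨-A, Submodule.neg_mem _ hA⟩) : ↥(forms u' P b) × ↥(forms u P a)) ∈
        LinearMap.ker φ := by
      rw [LinearMap.mem_ker, hφ, pencil_apply]
      simp only
      ring
    have hne : (⟨_, hker⟩ : ↥(LinearMap.ker φ)) ≠ 0 := by
      intro h
      have h1 := congrArg (fun x : ↥(LinearMap.ker φ) =>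
        ((x : ↥(forms u' P b) × ↥(forms u P a)).1 : MvPolynomial (Fin 3) L)) h
      exact hB0 h1
    have : Nontrivial ↥(LinearMap.ker φ) := ⟨⟨_, _, hne⟩⟩
    exact Nat.one_le_iff_ne_zero.2 (Module.finrank_pos (R := L) (M := ↥(LinearMap.ker φ))).ne'
  omega

end Pool.Agent.U810.GI
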