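import Pool.Agent.U810.GI.Ord

set_option autoImplicit false

/-! Galois descent: all factors of a form which is irreducible over a perfect field have the same
slopes. -/

namespace Pool.Agent.U810.GI

open MvPolynomial Pool.Agent.H248R5 Pool.Agent.H248R6 Pool.Agent.U810.IR

theorem unit_of_deg {L : Type*} [Field L] {p : MvPolynomial (Fin 3) L} (hp0 : p ≠ 0)
    (hp : p.totalDegree = 0) : ∃ k : L, k ≠ 0 ∧ p = C k := by
  rw [totalDegree_eq_zero_iff_eq_C] at hp
  refine ⟨_, ?_, hp⟩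
  intro h0
  rw [h0, map_zero] at hp
  exact hp0 hp

theorem deg_of_unit {L : Type*} [Field L] {p : MvPolynomial (Fin 3) L} (hp : IsUnit p) :
    p.totalDegree = 0 := by
  obtain ⟨x, -, hx⟩ := MvPolynomial.isUnit_iff_eq_C_of_isReduced.1 hp
  rw [hx, totalDegree_C]

section

variable {F Ω : Type} [Field F] [Field Ω] [Algebra F Ω] [IsGalois F Ω]

theorem descend {D : MvPolynomial (Fin 3) Ω}
    (h : ∀ σ : Ω ≃ₐ[F] Ω, MvPolynomial.map (σ : Ω →+* Ω) D = D) :
    ∃ D0 : MvPolynomial (Fin 3) F, MvPolynomial.map (algebraMap F Ω) D0 = D := by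
  classical
  have h1 : ∀ s, ∃ x : F, algebraMap F Ω x = coeff s D := by
    intro s
    have h2 : coeff s D ∈ (⊥ : IntermediateField F Ω) := by
      rw [InfiniteGalois.mem_bot_iff_fixed]
      intro σ
      have h3 := congrArg (coeff s) (h σ)
      rw [coeff_map] at h3
      exact h3
    exact IntermediateField.mem_bot.1 h2
  choose x hx using h1
  refine ⟨∑ s ∈ D.support, monomial s (x s), ?_⟩
  rw [map_sum]
  simp only [map_monomial, hx]
  exact (as_sum D).symm

theorem galois_dvd {G0 : MvPolynomial (Fin 3) F} (hG : Irreducible G0)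
    {D Q : MvPolynomial (Fin 3) Ω} (hD : D * Q = MvPolynomial.map (algebraMap F Ω) G0)
    (h : ∀ σ : Ω ≃ₐ[F] Ω, ∃ k : Ω, MvPolynomial.map (σ : Ω →+* Ω) D = C k * D) :
    D.totalDegree = 0 ∨ Q.totalDegree = 0 := by
  have hG0 : MvPolynomial.map (algebraMap F Ω) G0 ≠ 0 := by
    intro h0
    exact hG.ne_zero ((MvPolynomial.map_injective _ (algebraMap F Ω).injective)
      (h0.trans (map_zero _).symm))
  have hD0 : D ≠ 0 := left_ne_zero_of_mul (hD ▸ hG0)
  have hQ0 : Q ≠ 0 := right_ne_zero_of_mul (hD ▸ hG0)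
  obtain ⟨r, hr⟩ := MvPolynomial.ne_zero_iff.1 hD0
  have hfix : ∀ σ : Ω ≃ₐ[F] Ω, MvPolynomial.map (σ : Ω →+* Ω) (C (coeff r D)⁻¹ * D) =
      C (coeff r D)⁻¹ * D := by
    intro σ
    obtain ⟨k, hk⟩ := h σ
    have h1 := congrArg (coeff r) hk
    rw [coeff_map, coeff_C_mul] at h1
    have h2 : (σ : Ω →+* Ω) (coeff r D) ≠ 0 := (map_ne_zero _).2 hr
    rw [map_mul, map_C, hk, ← mul_assoc, ← map_mul, map_inv₀, h1]
    congr 2
    have hk0 : k ≠ 0 := by
      rintro rfl
      rw [zero_mul] at h1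
      exact h2 h1
    field_simp
  obtain ⟨D0, hD0'⟩ := descend hfix
  have hmap : ∀ σ : Ω ≃ₐ[F] Ω, MvPolynomial.map (σ : Ω →+* Ω)
      (MvPolynomial.map (algebraMap F Ω) G0) = MvPolynomial.map (algebraMap F Ω) G0 := by
    intro σ
    have e : (σ : Ω →+* Ω).comp (algebraMap F Ω) = algebraMap F Ω :=
      RingHom.ext fun x => σ.commutes x
    rw [MvPolynomial.map_map, e]
  have hmul : (C (coeff r D)⁻¹ * D) * (C (coeff r D) * Q) =
      MvPolynomial.map (algebraMap F Ω) G0 := by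
    rw [← hD]
    calc (C (coeff r D)⁻¹ * D) * (C (coeff r D) * Q) =
        (C (coeff r D)⁻¹ * C (coeff r D)) * (D * Q) := by ring
      _ = D * Q := by rw [← map_mul, inv_mul_cancel₀ hr, map_one, one_mul]
  have hne : C (coeff r D)⁻¹ * D ≠ 0 := left_ne_zero_of_mul (hmul ▸ hG0)
  obtain ⟨Q0, hQ0'⟩ := descend (F := F) (D := C (coeff r D) * Q) (by
    intro σ
    have h1 := congrArg (MvPolynomial.map (σ : Ω →+* Ω)) hmul
    rw [hmap, map_mul, hfix, ← hmul] at h1
    exact mul_left_cancel₀ hne h1)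
  have h2 : D0 * Q0 = G0 := by
    apply MvPolynomial.map_injective _ (algebraMap F Ω).injective
    rw [map_mul, hD0', hQ0', hmul]
  have hdegC : ∀ (k : Ω) (p : MvPolynomial (Fin 3) Ω), k ≠ 0 → p ≠ 0 →
      (C k * p).totalDegree = p.totalDegree := by
    intro k p hk hp
    rw [totalDegree_mul_of_isDomain (by rwa [Ne, C_eq_zero]) hp, totalDegree_C, zero_add]
  rcases hG.isUnit_or_isUnit h2.symm with hu | hu
  · left
    have h3 := deg_of_unit (hu.map (MvPolynomial.map (algebraMap F Ω)))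
    rw [hD0', hdegC _ _ (inv_ne_zero hr) hD0] at h3
    exact h3
  · right
    have h3 := deg_of_unit (hu.map (MvPolynomial.map (algebraMap F Ω)))
    rw [hQ0', hdegC _ _ hr hQ0] at h3
    exact h3

end

theorem tau_hom {K L : Type*} [Field K] [Field L] (φ : K →+* L) (p : Fin 2 → K)
    (G : MvPolynomial (Fin 3) K) :
    tau (fun a => φ (p a)) (MvPolynomial.map φ G) = MvPolynomial.map φ (tau p G) :=
  @tau_map K L _ _ φ.toAlgebra p G

theorem ord_map {K L : Type*} [Field K] [Field L] (φ : K →+* L) (f : MvPolynomial (Fin 2) K) :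
    ord (MvPolynomial.map φ f) = ord f := by
  refine ENat.eq_of_forall_natCast_le_iff fun k => ?_
  rw [← mem_iff, ← mem_iff, mem_pow_idealOfVars_iff', mem_pow_idealOfVars_iff']
  refine forall_congr' fun s => forall_congr' fun _ => ?_
  rw [coeff_map]
  exact map_eq_zero φ

theorem mu_map {K L : Type*} [Field K] [Field L] (φ : K →+* L) {n : ℕ} (P : Fin n → Fin 2 → K)
    (A : MvPolynomial (Fin 3) K) (i : Fin n) :
    mu (fun i a => φ (P i a)) (MvPolynomial.map φ A) i = mu P A i := by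
  unfold mu
  rw [tau_hom, ord_map]

section

variable {F Ω : Type} [Field F] [Field Ω] [Algebra F Ω] [IsGalois F Ω]

theorem slope_le {n : ℕ} (P : Fin n → Fin 2 → F) {G0 : MvPolynomial (Fin 3) F}
    (hirr : Irreducible G0) {d : ℕ} (hG : G0.IsHomogeneous d) (i : Fin n)
    {A : MvPolynomial (Fin 3) Ω} (hA : A ∣ MvPolynomial.map (algebraMap F Ω) G0) :
    d * mu (fun i a => algebraMap F Ω (P i a)) A i ≤
      mu (fun i a => algebraMap F Ω (P i a)) (MvPolynomial.map (algebraMap F Ω) G0) i *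
        A.totalDegree := by
  classical
  obtain ⟨PO, hPO⟩ : ∃ PO : Fin n → Fin 2 → Ω, PO = fun i a => algebraMap F Ω (P i a) := ⟨_, rfl⟩
  obtain ⟨G, hGG⟩ : ∃ G, G = MvPolynomial.map (algebraMap F Ω) G0 := ⟨_, rfl⟩
  rw [← hGG] at hA ⊢
  rw [← hPO]
  have hG0 : G ≠ 0 := by
    rw [hGG]
    intro h0
    exact hirr.ne_zero ((MvPolynomial.map_injective _ (algebraMap F Ω).injective)
      (h0.trans (map_zero _).symm))
  have hGh : G.IsHomogeneous d := by
    rw [hGG]
    exact hG.map _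
  have hGd : G.totalDegree = d := hGh.totalDegree hG0
  have hhom : ∀ x, x ∣ G → x.IsHomogeneous x.totalDegree := fun x hx =>
    Pool.Agent.Chud.homog_of_dvd hGh hG0 hx
  have hne : ∀ x, x ∣ G → x ≠ 0 := fun x hx h0 => hG0 (zero_dvd_iff.1 (h0 ▸ hx))
  let m := mu PO G i
  let f : MvPolynomial (Fin 3) Ω → ℤ := fun x =>
    ((d : ℤ) + 1) * ((d : ℤ) * (mu PO x i : ℤ) - (m : ℤ) * (x.totalDegree : ℤ)) -
      (x.totalDegree : ℤ)
  have hfmul : ∀ x y, x * y ∣ G → f (x * y) = f x + f y := by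
    intro x y hxy
    have hx : x ∣ G := (dvd_mul_right x y).trans hxy
    have hy : y ∣ G := (dvd_mul_left y x).trans hxy
    have h1 := mu_mul PO (hhom x hx) (hne x hx) (hhom y hy) (hne y hy) i
    have h2 := totalDegree_mul_of_isDomain (hne x hx) (hne y hy)
    simp only [f]
    rw [h1, h2]
    push_cast
    ring
  have hmu : ∀ x, x ∣ G → mu PO x i ≤ m := by
    rintro x ⟨y, hy⟩
    have hx : x ∣ G := ⟨y, hy⟩
    have hy' : y ∣ G := ⟨x, by rw [hy, mul_comm]⟩
    have h1 := mu_mul PO (hhom x hx) (hne x hx) (hhom y hy') (hne y hy') i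
    rw [← hy] at h1
    omega
  have hdeg : ∀ x, x ∣ G → x.totalDegree ≤ d := by
    rintro x ⟨y, hy⟩
    have hx : x ∣ G := ⟨y, hy⟩
    have hy' : y ∣ G := ⟨x, by rw [hy, mul_comm]⟩
    have h2 := totalDegree_mul_of_isDomain (hne x hx) (hne y hy')
    rw [← hy, hGd] at h2
    omega
  have hzero : ∀ x, x ∣ G → f x = 0 → x.totalDegree = 0 := by
    intro x hx h0
    have h1 := hdeg x hx
    simp only [f] at h0
    generalize (d : ℤ) * (mu PO x i : ℤ) - (m : ℤ) * (x.totalDegree : ℤ) = s at h0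
    have h2 : (0 : ℤ) ≤ s := by
      by_contra hs
      push Not at hs
      have : ((d : ℤ) + 1) * s ≤ 0 := mul_nonpos_of_nonneg_of_nonpos (by positivity) hs.le
      nlinarith
    have h3 : s < 1 := by
      by_contra hs
      push Not at hs
      have h4 : ((d : ℤ) + 1) * 1 ≤ ((d : ℤ) + 1) * s :=
        mul_le_mul_of_nonneg_left hs (by positivity)
      omega
    have h5 : s = 0 := by omega
    rw [h5, mul_zero] at h0
    omega
  by_contra hcon
  push Not at hcon
  have hbdd : ∃ b : ℤ, ∀ z, (∃ x, x ∣ G ∧ f x = z) → z ≤ b := by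
    refine ⟨((d : ℤ) + 1) * ((d : ℤ) * m), ?_⟩
    rintro z ⟨x, hx, rfl⟩
    have h1 := hmu x hx
    simp only [f]
    have h2 : (d : ℤ) * (mu PO x i : ℤ) - (m : ℤ) * (x.totalDegree : ℤ) ≤ (d : ℤ) * m := by
      have h3 : (d : ℤ) * (mu PO x i : ℤ) ≤ (d : ℤ) * m :=
        mul_le_mul_of_nonneg_left (by exact_mod_cast h1) (by positivity)
      have h4 : (0 : ℤ) ≤ (m : ℤ) * (x.totalDegree : ℤ) := by positivity
      omega
    have h3 := mul_le_mul_of_nonneg_left h2 (show (0 : ℤ) ≤ (d : ℤ) + 1 by positivity)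
    omega
  obtain ⟨M, ⟨D, hD, hDM⟩, hmax⟩ := Int.exists_greatest_of_bdd hbdd ⟨_, A, hA, rfl⟩
  have hM : 1 ≤ M := by
    have h1 := hmax _ ⟨A, hA, rfl⟩
    have h2 := hdeg A hA
    have h3 : (1 : ℤ) ≤ (d : ℤ) * (mu PO A i : ℤ) - (m : ℤ) * (A.totalDegree : ℤ) := by
      have : ((m * A.totalDegree : ℕ) : ℤ) < ((d * mu PO A i : ℕ) : ℤ) := by exact_mod_cast hcon
      push_cast at this
      omega
    have h4 := mul_le_mul_of_nonneg_left h3 (show (0 : ℤ) ≤ (d : ℤ) + 1 by positivity)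
    simp only [f] at h1
    omega
  obtain ⟨Q, hQ⟩ := hD
  have hgal : ∀ σ : Ω ≃ₐ[F] Ω, ∃ k : Ω, MvPolynomial.map (σ : Ω →+* Ω) D = C k * D := by
    intro σ
    obtain ⟨D', hD'⟩ : ∃ D', D' = MvPolynomial.map (σ : Ω →+* Ω) D := ⟨_, rfl⟩
    rw [← hD']
    have hσG : MvPolynomial.map (σ : Ω →+* Ω) G = G := by
      have e : (σ : Ω →+* Ω).comp (algebraMap F Ω) = algebraMap F Ω :=
        RingHom.ext fun x => σ.commutes x
      rw [hGG, MvPolynomial.map_map, e]
    have hD'G : D' ∣ G := by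
      refine ⟨MvPolynomial.map (σ : Ω →+* Ω) Q, ?_⟩
      rw [hD', ← map_mul, ← hQ, hσG]
    have hDG : D ∣ G := ⟨Q, hQ⟩
    have hσP : (fun i a => (σ : Ω →+* Ω) (PO i a)) = PO := by
      rw [hPO]
      funext i a
      exact σ.commutes (P i a)
    have hfD' : f D' = M := by
      rw [← hDM]
      have h1 := mu_map (σ : Ω →+* Ω) PO D i
      rw [hσP, ← hD'] at h1
      have h2 : D'.totalDegree = D.totalDegree := by
        have h3 : D'.IsHomogeneous D.totalDegree := by
          rw [hD']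
          exact (hhom D hDG).map _
        exact h3.totalDegree (hne D' hD'G)
      simp only [f]
      rw [h1, h2]
    obtain ⟨x, y, c, hrel, hx, hy⟩ :=
      UniqueFactorizationMonoid.exists_reduced_factors D (hne D hDG) D'
    have hc0 : c ≠ 0 := by
      rintro rfl
      rw [zero_mul] at hx
      exact hne D hDG hx.symm
    obtain ⟨Q', hQ'⟩ := hD'G
    have h1 : y ∣ x * Q := by
      refine ⟨Q', mul_left_cancel₀ hc0 ?_⟩
      calc c * (x * Q) = (c * x) * Q := by ring
        _ = G := by rw [hx, ← hQ]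
        _ = (c * y) * Q' := by rw [hy, ← hQ']
        _ = c * (y * Q') := by ring
    obtain ⟨w, hw⟩ := hrel.symm.dvd_of_dvd_mul_left h1
    have hl : (c * x) * y ∣ G := ⟨w, by rw [hx, hQ, hw]; ring⟩
    have hcG : c ∣ G := (Dvd.intro x hx).trans hDG
    have hxG : x ∣ G := (Dvd.intro_left c hx).trans hDG
    have hyG : y ∣ G := (Dvd.intro_left c hy).trans ⟨Q', hQ'⟩
    have e1 : f D = f c + f x := by
      rw [← hx]
      exact hfmul c x (hx ▸ hDG)
    have e2 : f D' = f c + f y := by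
      rw [← hy]
      exact hfmul c y (hy ▸ ⟨Q', hQ'⟩)
    have e3 : f ((c * x) * y) = f D + f y := by
      rw [hfmul _ _ hl, hx]
    have e4 := hmax _ ⟨_, hl, rfl⟩
    have e5 := hmax _ ⟨_, hcG, rfl⟩
    rw [e3] at e4
    have e6 : f x = 0 := by omega
    have e7 : f y = 0 := by omega
    obtain ⟨kx, hkx, hkx'⟩ := unit_of_deg (hne x hxG) (hzero x hxG e6)
    obtain ⟨ky, hky, hky'⟩ := unit_of_deg (hne y hyG) (hzero y hyG e7)
    refine ⟨ky * kx⁻¹, ?_⟩
    rw [← hy, ← hx, hkx', hky']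
    calc c * C ky = c * C (ky * kx⁻¹ * kx) := by rw [inv_mul_cancel_right₀ hkx]
      _ = C (ky * kx⁻¹) * (c * C kx) := by
        rw [map_mul]
        ring
  have hDG : D ∣ G := ⟨Q, hQ⟩
  have hQG : Q ∣ G := ⟨D, by rw [hQ, mul_comm]⟩
  have hconst : ∀ x, x ∣ G → x.totalDegree = 0 → f x = 0 := by
    intro x hx h0
    obtain ⟨k, hk, rfl⟩ := unit_of_deg (hne x hx) h0
    have h1 : mu PO (C k) i = 0 := by
      have h2 := coe_mu PO (isHomogeneous_C _ k) (hne _ hx) i
      rw [tau_C] at h2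
      have h3 : ¬ ((1 : ℕ) : ℕ∞) ≤ ord (C k : MvPolynomial (Fin 2) Ω) := by
        rw [← mem_iff, mem_pow_idealOfVars_iff']
        intro h4
        have h5 := h4 0 (by simp)
        rw [coeff_zero_C] at h5
        exact hk h5
      rw [← h2] at h3
      have h6 : ¬ 1 ≤ mu PO (C k) i := fun h7 => h3 (by exact_mod_cast h7)
      omega
    simp only [f]
    rw [h1, totalDegree_C]
    simp
  have hfG : f G = f D + f Q := by
    have := hfmul D Q (hQ ▸ dvd_rfl)
    rwa [← hQ] at this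
  have hfG' : f G = -(d : ℤ) := by
    simp only [f, m]
    rw [hGd]
    ring
  rcases galois_dvd hirr (hQ.symm.trans hGG) hgal with h | h
  · have := hconst D hDG h
    omega
  · have := hconst Q hQG h
    omega

/-- **All factors have the same slopes.** -/
theorem slopes {n : ℕ} (P : Fin n → Fin 2 → F) {G0 : MvPolynomial (Fin 3) F}
    (hirr : Irreducible G0) {d : ℕ} (hG : G0.IsHomogeneous d) (i : Fin n)
    {A B : MvPolynomial (Fin 3) Ω} (hA : A * B = MvPolynomial.map (algebraMap F Ω) G0) :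
    d * mu (fun i a => algebraMap F Ω (P i a)) A i =
      mu (fun i a => algebraMap F Ω (P i a)) (MvPolynomial.map (algebraMap F Ω) G0) i *
        A.totalDegree := by
  have hG0 : MvPolynomial.map (algebraMap F Ω) G0 ≠ 0 := by
    intro h0
    exact hirr.ne_zero ((MvPolynomial.map_injective _ (algebraMap F Ω).injective)
      (h0.trans (map_zero _).symm))
  have hGh : (MvPolynomial.map (algebraMap F Ω) G0).IsHomogeneous d := hG.map _
  have hAG : A ∣ MvPolynomial.map (algebraMap F Ω) G0 := ⟨B, hA.symm⟩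
  have hBG : B ∣ MvPolynomial.map (algebraMap F Ω) G0 := ⟨A, by rw [← hA, mul_comm]⟩
  have hA0 : A ≠ 0 := left_ne_zero_of_mul (hA ▸ hG0)
  have hB0 : B ≠ 0 := right_ne_zero_of_mul (hA ▸ hG0)
  have h1 := slope_le P hirr hG i hAG
  have h2 := slope_le P hirr hG i hBG
  have h3 := mu_mul (fun i a => algebraMap F Ω (P i a))
    (Pool.Agent.Chud.homog_of_dvd hGh hG0 hAG) hA0
    (Pool.Agent.Chud.homog_of_dvd hGh hG0 hBG) hB0 i
  have h4 := totalDegree_mul_of_isDomain hA0 hB0
  rw [hA] at h3 h4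
  rw [hGh.totalDegree hG0] at h4
  have h5 : d * mu (fun i a => algebraMap F Ω (P i a))
      (MvPolynomial.map (algebraMap F Ω) G0) i = d * mu (fun i a => algebraMap F Ω (P i a)) A i +
        d * mu (fun i a => algebraMap F Ω (P i a)) B i := by
    rw [h3]
    ring
  have h6 : mu (fun i a => algebraMap F Ω (P i a)) (MvPolynomial.map (algebraMap F Ω) G0) i * d =
      mu (fun i a => algebraMap F Ω (P i a)) (MvPolynomial.map (algebraMap F Ω) G0) i *
        A.totalDegree +
      mu (fun i a => algebraMap F Ω (P i a)) (MvPolynomial.map (algebraMap F Ω) G0) i *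
        B.totalDegree := by
    rw [h4]
    ring
  rw [mul_comm] at h6
  omega

end

end Pool.Agent.U810.GI
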