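import Pool.Agent.U810.GI.Irr

set_option autoImplicit false

/-! Symmetric nonspecial linear systems with at least two members have no common factor. -/

namespace Pool.Agent.U810.GI

open MvPolynomial Pool.Agent.H248R5 Pool.Agent.H248R6 Pool.Agent.U810.IR

/-- a greatest common divisor of the members -/
theorem exists_gcd {K : Type} [Field K] {V : Submodule K (MvPolynomial (Fin 3) K)} {d : ℕ}
    {F0 : MvPolynomial (Fin 3) K} (hF0 : F0 ∈ V) (hF00 : F0 ≠ 0) (hF0h : F0.IsHomogeneous d) :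
    ∃ E : MvPolynomial (Fin 3) K, (∀ F ∈ V, E ∣ F) ∧ ∀ E', (∀ F ∈ V, E' ∣ F) → E' ∣ E := by
  classical
  let p : ℕ → Prop := fun k => ∃ E : MvPolynomial (Fin 3) K, (∀ F ∈ V, E ∣ F) ∧ E.totalDegree = k
  have hp0 : p 0 := ⟨1, fun F _ => one_dvd F, totalDegree_one⟩
  obtain ⟨E, hE, hEd⟩ := Nat.findGreatest_spec (Nat.zero_le d) hp0
  have hdle : ∀ E' : MvPolynomial (Fin 3) K, (∀ F ∈ V, E' ∣ F) → E'.totalDegree ≤ d := by
    intro E' hE'
    obtain ⟨Q, hQ⟩ := hE' F0 hF0
    have hE0 : E' ≠ 0 := by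
      rintro rfl
      rw [zero_mul] at hQ
      exact hF00 hQ
    have hQ0 : Q ≠ 0 := by
      rintro rfl
      rw [mul_zero] at hQ
      exact hF00 hQ
    have h1 := totalDegree_mul_of_isDomain hE0 hQ0
    rw [← hQ, hF0h.totalDegree hF00] at h1
    omega
  have hmax : ∀ E' : MvPolynomial (Fin 3) K, (∀ F ∈ V, E' ∣ F) → E'.totalDegree ≤ E.totalDegree := by
    intro E' hE'
    rw [hEd]
    exact Nat.le_findGreatest (hdle E' hE') ⟨E', hE', rfl⟩
  refine ⟨E, hE, fun E' hE' => ?_⟩
  have hE0 : E ≠ 0 := fun h0 => hF00 (zero_dvd_iff.1 (h0 ▸ hE F0 hF0))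
  obtain ⟨x, y, c, hrel, hx, hy⟩ := UniqueFactorizationMonoid.exists_reduced_factors E hE0 E'
  have hc0 : c ≠ 0 := by
    rintro rfl
    rw [zero_mul] at hx
    exact hE0 hx.symm
  have hx0 : x ≠ 0 := by
    rintro rfl
    rw [mul_zero] at hx
    exact hE0 hx.symm
  have hcom : ∀ F ∈ V, c * x * y ∣ F := by
    intro F hF
    obtain ⟨Q, hQ⟩ := hE F hF
    obtain ⟨Q', hQ'⟩ := hE' F hF
    have h1 : y ∣ x * Q := by
      refine ⟨Q', mul_left_cancel₀ hc0 ?_⟩
      calc c * (x * Q) = (c * x) * Q := by ring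
        _ = F := by rw [hx, ← hQ]
        _ = (c * y) * Q' := by rw [hy, ← hQ']
        _ = c * (y * Q') := by ring
    obtain ⟨w, hw⟩ := hrel.symm.dvd_of_dvd_mul_left h1
    exact ⟨w, by rw [hx, hQ, hw]; ring⟩
  have hy0 : y ≠ 0 := by
    rintro rfl
    have := hcom F0 hF0
    rw [mul_zero, zero_dvd_iff] at this
    exact hF00 this
  have h2 := hmax _ hcom
  rw [hx, totalDegree_mul_of_isDomain hE0 hy0] at h2
  obtain ⟨k, hk, rfl⟩ := unit_of_deg hy0 (by omega)
  rw [← hy, ← hx]
  refine ⟨C k⁻¹ * x, ?_⟩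
  calc c * x = c * (C k * C k⁻¹) * x := by rw [← map_mul, mul_inv_cancel₀ hk, map_one, mul_one]
    _ = c * C k * (C k⁻¹ * x) := by ring

theorem no_common {K : Type} [Field K] {n : ℕ} {π v : Fin n → ℕ} (hv : Gc π v)
    (hπ : ∀ k : Fin n → ℕ, Gc π k → ∀ i, 10 * k i ≤ ∑ j, k j) {P : Fin n → Fin 2 → K} {d : ℕ}
    (hE : Exp π P d) (hS : Sy P d) (h2 : 2 ≤ Module.finrank K ↥(forms v P d))
    {g : MvPolynomial (Fin 3) K} (hg : ∀ G ∈ forms v P d, g ∣ G) : IsUnit g := by
  classical
  have hfinV := forms_finite v P d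
  have hntr : Nontrivial ↥(forms v P d) := Module.nontrivial_of_finrank_pos (R := K) (by omega)
  obtain ⟨⟨F0, hF0⟩, hne⟩ := exists_ne (0 : ↥(forms v P d))
  have hF00 : F0 ≠ 0 := fun h => hne (Subtype.ext h)
  have hF0h : F0.IsHomogeneous d := (mem_forms.1 hF0).1
  obtain ⟨E, hEV, hEgcd⟩ := exists_gcd hF0 hF00 hF0h
  have hE0 : E ≠ 0 := fun h0 => hF00 (zero_dvd_iff.1 (h0 ▸ hEV F0 hF0))
  have hEh := Pool.Agent.Chud.homog_of_dvd hF0h hF00 (hEV F0 hF0)
  obtain ⟨e, he⟩ : ∃ e, e = E.totalDegree := ⟨_, rfl⟩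
  rw [← he] at hEh
  rcases Nat.eq_zero_or_pos e with he0 | he1
  · obtain ⟨k, hk, hEk⟩ := unit_of_deg hE0 (by omega)
    have h3 := hEgcd g hg
    rw [hEk] at h3
    exact isUnit_of_dvd_unit h3 (IsUnit.map C (Ne.isUnit hk))
  exfalso
  have hed : e ≤ d := by
    obtain ⟨Q, hQ⟩ := hEV F0 hF0
    have hQ0 : Q ≠ 0 := by
      rintro rfl
      rw [mul_zero] at hQ
      exact hF00 hQ
    have h1 := totalDegree_mul_of_isDomain hE0 hQ0
    rw [← hQ, hF0h.totalDegree hF00] at h1
    omega
  let u : Fin n → ℕ := fun i => mu P E i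
  let w' : Fin n → ℕ := fun i => v i - u i
  have hEm : E ∈ forms u P e := (mem_forms_iff hEh hE0).2 fun i => le_rfl
  -- the cofactors
  have hdiv : ∀ F ∈ forms v P d, ∃ F1 ∈ forms w' P (d - e), F = E * F1 := by
    intro F hF
    rcases eq_or_ne F 0 with rfl | hFne
    · exact ⟨0, Submodule.zero_mem _, by rw [mul_zero]⟩
    obtain ⟨Q, hQ⟩ := hEV F hF
    have hFh := (mem_forms.1 hF).1
    have hQ0 : Q ≠ 0 := by
      rintro rfl
      rw [mul_zero] at hQ
      exact hFne hQ
    have hQh := Pool.Agent.Chud.homog_of_dvd hFh hFne ⟨E, by rw [hQ, mul_comm]⟩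
    have h1 := totalDegree_mul_of_isDomain hE0 hQ0
    rw [← hQ, hFh.totalDegree hFne] at h1
    have h3 : Q.totalDegree = d - e := by omega
    rw [h3] at hQh
    refine ⟨Q, (mem_forms_iff hQh hQ0).2 fun i => ?_, hQ⟩
    have h4 := (mem_forms_iff hFh hFne).1 hF i
    rw [hQ, mu_mul P hEh hE0 hQh hQ0] at h4
    change v i - mu P E i ≤ _
    omega
  have hback : ∀ F1 ∈ forms w' P (d - e), E * F1 ∈ forms (fun i => u i + w' i) P d := by
    intro F1 hF1
    have h1 := mul_mem hEm hF1
    rwa [Nat.add_sub_cancel' hed] at h1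
  have hv'v : ∀ i, v i ≤ u i + w' i := fun i => by
    change v i ≤ u i + (v i - u i)
    omega
  have heq : forms v P d = forms (fun i => u i + w' i) P d := by
    refine le_antisymm (fun F hF => ?_) fun F hF => forms_anti hv'v hF
    obtain ⟨F1, hF1, rfl⟩ := hdiv F hF
    exact hback F1 hF1
  have hfin' := forms_finite w' P (d - e)
  have hNw : Module.finrank K ↥(forms w' P (d - e)) = Module.finrank K ↥(forms v P d) := by
    let φ : ↥(forms w' P (d - e)) →ₗ[K] ↥(forms v P d) :=
      { toFun := fun x => ⟨E * (x : MvPolynomial (Fin 3) K), by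
          rw [heq]
          exact hback _ x.2⟩
        map_add' := fun x y => Subtype.ext (by simp [mul_add])
        map_smul' := fun c x => Subtype.ext (by simp) }
    have hinj : Function.Injective φ := by
      intro x y hxy
      exact Subtype.ext (mul_left_cancel₀ hE0 (congrArg Subtype.val hxy))
    have hsur : Function.Surjective φ := by
      rintro ⟨F, hF⟩
      obtain ⟨F1, hF1, hFF⟩ := hdiv F hF
      exact ⟨⟨F1, hF1⟩, Subtype.ext hFF.symm⟩
    exact (LinearEquiv.ofBijective φ ⟨hinj, hsur⟩).finrank_eq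
  have hud : ∀ i, u i ≤ d := fun i => (mu_le P hEh hE0 i).trans hed
  have hvd : ∀ i, v i ≤ d := fun i =>
    ((mem_forms_iff hF0h hF00).1 hF0 i).trans (mu_le P hF0h hF00 i)
  have hw'd : ∀ i, w' i ≤ d := fun i => (Nat.sub_le _ _).trans (hvd i)
  -- symmetry
  have hfinE := forms_finite u P e
  have key : ∀ i j, π i = π j → u j ≤ u i := by
    intro i j hij
    have hvσ : ∀ x, v (Equiv.swap i j x) = v x := by
      intro x
      rcases eq_or_ne x i with rfl | hx
      · rw [Equiv.swap_apply_left]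
        exact hv _ _ hij.symm
      · rcases eq_or_ne x j with rfl | hx'
        · rw [Equiv.swap_apply_right]
          exact hv _ _ hij
        · rw [Equiv.swap_apply_of_ne_of_ne hx hx']
    have s1 := hS u hud e hed (Equiv.swap i j)
    have s2 := hS w' hw'd (d - e) (Nat.sub_le _ _) (Equiv.swap i j)
    have hntE : Nontrivial ↥(forms u P e) := ⟨⟨⟨E, hEm⟩, 0, fun h => hE0 (congrArg Subtype.val h)⟩⟩
    have s3 := Module.finrank_pos (R := K) (M := ↥(forms u P e))
    have hnt2 : Nontrivial ↥(forms (fun x => u (Equiv.swap i j x)) P e) :=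
      Module.nontrivial_of_finrank_pos (R := K) (by omega)
    obtain ⟨⟨E', hE'm⟩, hE'ne⟩ := exists_ne (0 : ↥(forms (fun x => u (Equiv.swap i j x)) P e))
    have hE'0 : E' ≠ 0 := fun h => hE'ne (Subtype.ext h)
    have hmulE : ∀ F1 ∈ forms (fun x => w' (Equiv.swap i j x)) P (d - e),
        E' * F1 ∈ forms v P d := by
      intro F1 hF1
      have h1 := mul_mem hE'm hF1
      rw [Nat.add_sub_cancel' hed] at h1
      refine forms_anti (fun x => ?_) h1
      rw [← hvσ x]
      exact hv'v _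
    have hfin2 := forms_finite (fun x => w' (Equiv.swap i j x)) P (d - e)
    let φ : ↥(forms (fun x => w' (Equiv.swap i j x)) P (d - e)) →ₗ[K] ↥(forms v P d) :=
      { toFun := fun x => ⟨E' * (x : MvPolynomial (Fin 3) K), hmulE _ x.2⟩
        map_add' := fun x y => Subtype.ext (by simp [mul_add])
        map_smul' := fun c x => Subtype.ext (by simp) }
    have hinj : Function.Injective φ := by
      intro x y hxy
      exact Subtype.ext (mul_left_cancel₀ hE'0 (congrArg Subtype.val hxy))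
    have hsur : Function.Surjective φ :=
      (LinearMap.injective_iff_surjective_of_finrank_eq_finrank (by rw [s2, hNw])).1 hinj
    have hE'V : ∀ F ∈ forms v P d, E' ∣ F := by
      intro F hF
      obtain ⟨x, hx⟩ := hsur ⟨F, hF⟩
      exact ⟨x, (congrArg Subtype.val hx).symm⟩
    obtain ⟨Q, hQ⟩ := hEgcd E' hE'V
    have hQ0 : Q ≠ 0 := by
      rintro rfl
      rw [mul_zero] at hQ
      exact hE0 hQ
    have hE'h : E'.IsHomogeneous e := (mem_forms.1 hE'm).1
    have h1 := totalDegree_mul_of_isDomain hE'0 hQ0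
    rw [← hQ, ← he, hE'h.totalDegree hE'0] at h1
    obtain ⟨k, hk, rfl⟩ := unit_of_deg hQ0 (by omega)
    have h3 : E ∈ forms (fun x => u (Equiv.swap i j x)) P e := by
      have h4 := mul_homog hE'm (isHomogeneous_C (Fin 3) k)
      rw [← hQ, add_zero] at h4
      exact h4
    have h5 := (mem_forms_iff hEh hE0).1 h3 i
    simp only [Equiv.swap_apply_left] at h5
    exact h5
  have hu : Gc π u := fun i j hij => le_antisymm (key j i hij.symm) (key i j hij)
  have hw' : Gc π w' := fun i j hij => by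
    change v i - u i = v j - u j
    rw [hv i j hij, hu i j hij]
  have hv' : Gc π (fun i => u i + w' i) := fun i j hij => by
    change u i + w' i = u j + w' j
    rw [hu i j hij, hw' i j hij]
  have hP : (fun i a => algebraMap K K (P i a)) = P := rfl
  have n1 := hE K u hu hud e hed
  have n2 := hE K w' hw' hw'd (d - e) (Nat.sub_le _ _)
  have hv'd : ∀ i, u i + w' i ≤ d := fun i =>
    ((mem_forms_iff hF0h hF00).1 (heq ▸ hF0) i).trans (mu_le P hF0h hF00 i)
  have n3 := hE K _ hv' hv'd d le_rfl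
  rw [hP] at n1 n2 n3
  rw [← heq] at n3
  have hntE : Nontrivial ↥(forms u P e) := ⟨⟨⟨E, hEm⟩, 0, fun h => hE0 (congrArg Subtype.val h)⟩⟩
  have s3 := Module.finrank_pos (R := K) (M := ↥(forms u P e))
  have hde : 1 ≤ d - e := by
    by_contra hcon
    have h0 : d - e = 0 := by omega
    rw [h0] at n2 hNw
    have : (0 + 2).choose 2 = 1 := rfl
    omega
  have c1 := cross (pos (hπ u hu) he1 (by omega)) (pos (hπ w' hw') hde (by omega))
  have c2 := num_fact (n := n) (a := e) (b := d - e) (u := u) (u' := w')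
    (f1 := Module.finrank K ↥(forms v P d)) (f2 := Module.finrank K ↥(forms u P e))
    (N := Module.finrank K ↥(forms v P d)) (by omega) (by omega)
    (by rw [Nat.add_sub_cancel' hed]; omega) (by omega)
  omega

end Pool.Agent.U810.GI
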