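import Pool.Agent.U810.GI.Gcd

set_option autoImplicit false

/-! From the generic to the general member, over the algebraic closure of the field of rational
functions. -/

namespace Pool.Agent.U810.GI

open MvPolynomial Pool.Agent.H248R5 Pool.Agent.H248R6 Pool.Agent.U810.IR

/-- Elimination: a system of equations with coefficients in a polynomial ring which has no solution
over the algebraic closure of the field of rational functions implies a nontrivial equation between
the variables. -/
theorem elimO {K : Type} [Field K] [CharZero K] {τ : Type} [Finite τ] {N : ℕ}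
    (J : Ideal (MvPolynomial τ (MvPolynomial (Fin N) K)))
    (H : ∀ q : τ → Om K N,
        ¬ ∀ p ∈ J, eval₂ (algebraMap (MvPolynomial (Fin N) K) (Om K N)) q p = 0) :
    ∃ s : MvPolynomial (Fin N) K, s ≠ 0 ∧ (C s : MvPolynomial τ (MvPolynomial (Fin N) K)) ∈ J := by
  classical
  by_contra hcon
  push Not at hcon
  let A := MvPolynomial (Fin N) K
  let F := FractionRing A
  let B := MvPolynomial τ A
  let BF := MvPolynomial τ F
  have hdis : Disjoint (((nonZeroDivisors A).map (C (σ := τ)) : Submonoid B) : Set B)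
      (J : Set B) := by
    rw [Set.disjoint_left]
    rintro _ ⟨s, hs, rfl⟩ hsJ
    exact hcon s (nonZeroDivisors.ne_zero hs) hsJ
  let _ : Algebra B BF := MvPolynomial.algebraMvPolynomial
  have hmap : ∀ x : B, algebraMap B BF x = MvPolynomial.map (algebraMap A F) x := fun x => by
    rw [MvPolynomial.algebraMap_def]
  have hne : J.map (algebraMap B BF) ≠ ⊤ :=
    (IsLocalization.map_algebraMap_ne_top_iff_disjoint
      ((nonZeroDivisors A).map (C (σ := τ))) BF J).2 hdis
  obtain ⟨m, hm, hJm⟩ := Ideal.exists_le_maximal _ hne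
  let _ : Field (BF ⧸ m) := Ideal.Quotient.field m
  have : Algebra.FiniteType F (BF ⧸ m) :=
    Algebra.FiniteType.of_surjective (Ideal.Quotient.mkₐ F m) Ideal.Quotient.mk_surjective
  have : Module.Finite F (BF ⧸ m) := finite_of_finite_type_of_isJacobsonRing F (BF ⧸ m)
  have : Algebra.IsAlgebraic F (BF ⧸ m) := Algebra.IsAlgebraic.of_finite F (BF ⧸ m)
  let ι : (BF ⧸ m) →ₐ[F] Om K N := IsAlgClosed.lift
  let q : τ → Om K N := fun a => ι (Ideal.Quotient.mk m (X a))
  let ψ : B →+* Om K N := (ι : (BF ⧸ m) →+* Om K N).comp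
    ((Ideal.Quotient.mk m).comp (algebraMap B BF))
  have hψ0 : ∀ x ∈ J, ψ x = 0 := by
    intro x hx
    change ι (Ideal.Quotient.mk m (algebraMap B BF x)) = 0
    rw [Ideal.Quotient.eq_zero_iff_mem.2 (hJm (Ideal.mem_map_of_mem _ hx)), map_zero]
  have hψ : ψ = eval₂Hom (algebraMap (MvPolynomial (Fin N) K) (Om K N)) q := by
    refine MvPolynomial.ringHom_ext (fun a => ?_) fun a => ?_
    · rw [coe_eval₂Hom, eval₂_C]
      change ι (Ideal.Quotient.mk m (algebraMap B BF (C a))) = _
      rw [hmap, map_C]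
      have h1 : (Ideal.Quotient.mk m (C (algebraMap A F a)) : BF ⧸ m) =
          algebraMap F (BF ⧸ m) (algebraMap A F a) := rfl
      rw [h1, AlgHom.commutes]
      rfl
    · rw [coe_eval₂Hom, eval₂_X]
      change ι (Ideal.Quotient.mk m (algebraMap B BF (X a))) = _
      rw [hmap, map_X]
  refine H q fun p hp => ?_
  have h1 := hψ0 p hp
  rw [hψ] at h1
  exact h1

/-- no factorisation of the general member in degrees `a`, `a'` -/
theorem no_fact_of {K : Type} [Field K] [CharZero K] {n : ℕ} {w : Fin n → ℕ}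
    {P : Fin n → Fin 2 → K} {d : ℕ} {N : ℕ} (b : Module.Basis (Fin N) K ↥(forms w P d))
    {a a' : ℕ}
    (H : ∀ A B : MvPolynomial (Fin 3) (Om K N), A.IsHomogeneous a → B.IsHomogeneous a' →
      A * B ≠ ∑ j, algebraMap (MvPolynomial (Fin N) K) (Om K N) (X j) •
        MvPolynomial.map (algebraMap K (Om K N)) (b j : MvPolynomial (Fin 3) K)) :
    ∃ s : MvPolynomial (Fin N) K, s ≠ 0 ∧ ∀ t : Fin N → K, eval t s ≠ 0 →
      ∀ A B : MvPolynomial (Fin 3) K, A.IsHomogeneous a → B.IsHomogeneous a' →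
        A * B ≠ ∑ j, t j • (b j : MvPolynomial (Fin 3) K) := by
  classical
  let R := MvPolynomial (Fin N) K
  let τ := Ex a ⊕ Ex a'
  let Au : MvPolynomial (Fin 3) (MvPolynomial τ R) := fm (fun s : Ex a => X (Sum.inl s))
  let Bu : MvPolynomial (Fin 3) (MvPolynomial τ R) := fm (fun s : Ex a' => X (Sum.inr s))
  let Gu : MvPolynomial (Fin 3) (MvPolynomial τ R) :=
    ∑ j, (C (X j) : MvPolynomial τ R) • MvPolynomial.map (algebraMap K (MvPolynomial τ R))
      (b j : MvPolynomial (Fin 3) K)
  let J : Ideal (MvPolynomial τ R) := Ideal.span (Set.range fun r => coeff r (Au * Bu - Gu))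
  have hkill : ∀ {L : Type} [Field L] (Ψ : MvPolynomial τ R →+* L),
      (∀ p ∈ J, Ψ p = 0) ↔ MvPolynomial.map Ψ Au * MvPolynomial.map Ψ Bu =
        MvPolynomial.map Ψ Gu := by
    intro L _ Ψ
    rw [← sub_eq_zero, ← map_mul, ← map_sub]
    constructor
    · intro h
      ext r
      rw [coeff_map, coeff_zero]
      exact h _ (Ideal.subset_span ⟨r, rfl⟩)
    · intro h p hp
      have hker : J ≤ RingHom.ker Ψ := by
        rw [Ideal.span_le]
        rintro _ ⟨r, rfl⟩
        change Ψ (coeff r (Au * Bu - Gu)) = 0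
        rw [← coeff_map, h, coeff_zero]
      exact hker hp
  obtain ⟨s, hs0, hs⟩ := elimO J (by
    intro q hq
    obtain ⟨Ψ, hΨ⟩ : ∃ Ψ : MvPolynomial τ R →+* Om K N, Ψ = eval₂Hom
      (algebraMap (MvPolynomial (Fin N) K) (Om K N)) q := ⟨_, rfl⟩
    have h3 := (hkill Ψ).1 (fun p hp => by rw [hΨ]; exact hq p hp)
    have hΨC : ∀ x, Ψ (C x) = algebraMap (MvPolynomial (Fin N) K) (Om K N) x :=
      fun x => by rw [hΨ]; exact eval₂_C _ _ _
    have eG : MvPolynomial.map Ψ Gu = ∑ j, algebraMap (MvPolynomial (Fin N) K) (Om K N) (X j) •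
        MvPolynomial.map (algebraMap K (Om K N)) (b j : MvPolynomial (Fin 3) K) := by
      rw [map_sum]
      refine Finset.sum_congr rfl fun j _ => ?_
      have e3 : Ψ.comp (algebraMap K (MvPolynomial τ R)) = algebraMap K (Om K N) := by
        refine RingHom.ext fun x => ?_
        change Ψ (algebraMap K (MvPolynomial τ R) x) = algebraMap K (Om K N) x
        have e1 : algebraMap K (MvPolynomial τ R) x = C (C x) := rfl
        rw [e1, hΨC]
        exact (IsScalarTower.algebraMap_apply K (MvPolynomial (Fin N) K) (Om K N) x).symm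
      rw [MvPolynomial.smul_eq_C_mul, map_mul, map_C, hΨC, MvPolynomial.smul_eq_C_mul,
        MvPolynomial.map_map, e3]
    rw [eG, map_fm, map_fm] at h3
    exact H _ _ (fm_homog _) (fm_homog _) h3)
  refine ⟨s, hs0, fun t ht A B hA hB hAB => ?_⟩
  let q : τ → K := Sum.elim (fun s => coeff (s : Fin 3 →₀ ℕ) A) (fun s => coeff (s : Fin 3 →₀ ℕ) B)
  obtain ⟨Ψ, hΨ⟩ : ∃ Ψ : MvPolynomial τ R →+* K, Ψ = eval₂Hom (eval t) q := ⟨_, rfl⟩
  have hΨX : ∀ x, Ψ (X x) = q x := fun x => by rw [hΨ]; exact eval₂_X _ _ _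
  have hΨC : ∀ x, Ψ (C x) = eval t x := fun x => by rw [hΨ]; exact eval₂_C _ _ _
  have h3 : MvPolynomial.map Ψ Au * MvPolynomial.map Ψ Bu = MvPolynomial.map Ψ Gu := by
    have e1 : MvPolynomial.map Ψ Au = A := by
      rw [map_fm]
      simp only [hΨX, q, Sum.elim_inl]
      exact fm_coeff hA
    have e2 : MvPolynomial.map Ψ Bu = B := by
      rw [map_fm]
      simp only [hΨX, q, Sum.elim_inr]
      exact fm_coeff hB
    rw [e1, e2, hAB, map_sum]
    refine Finset.sum_congr rfl fun j _ => ?_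
    rw [MvPolynomial.smul_eq_C_mul, MvPolynomial.smul_eq_C_mul, map_mul, map_C, hΨC, eval_X,
      MvPolynomial.map_map]
    have e3 : Ψ.comp (algebraMap K (MvPolynomial τ R)) = RingHom.id K := by
      refine RingHom.ext fun x => ?_
      change Ψ (algebraMap K (MvPolynomial τ R) x) = x
      have e1 : algebraMap K (MvPolynomial τ R) x = C (C x) := rfl
      rw [e1, hΨC, eval_C]
    rw [e3, MvPolynomial.map_id]
  have h4 := (hkill Ψ).2 h3 _ hs
  rw [hΨC] at h4
  exact ht h4

/-- from the pairs of degrees to irreducibility -/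
theorem general_of_pairs {K : Type} [Field K] [CharZero K] {n : ℕ} {w : Fin n → ℕ}
    {P : Fin n → Fin 2 → K} {d : ℕ} (hd : 1 ≤ d) {N : ℕ} (hN : 0 < N)
    (b : Module.Basis (Fin N) K ↥(forms w P d))
    (H : ∀ a a' : ℕ, 1 ≤ a → 1 ≤ a' → a + a' = d →
      ∀ A B : MvPolynomial (Fin 3) (Om K N), A.IsHomogeneous a → B.IsHomogeneous a' →
      A * B ≠ ∑ j, algebraMap (MvPolynomial (Fin N) K) (Om K N) (X j) •
        MvPolynomial.map (algebraMap K (Om K N)) (b j : MvPolynomial (Fin 3) K)) :
    ∃ Φ : MvPolynomial (Fin N) K, Φ ≠ 0 ∧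
      ∀ t : Fin N → K, eval t Φ ≠ 0 → Irreducible (∑ j, t j • (b j : MvPolynomial (Fin 3) K)) := by
  classical
  have hex : ∀ a : ℕ, ∃ s : MvPolynomial (Fin N) K, s ≠ 0 ∧ (1 ≤ a → a + 1 ≤ d →
      ∀ t : Fin N → K, eval t s ≠ 0 →
      ∀ A B : MvPolynomial (Fin 3) K, A.IsHomogeneous a → B.IsHomogeneous (d - a) →
        A * B ≠ ∑ j, t j • (b j : MvPolynomial (Fin 3) K)) := by
    intro a
    by_cases ha : 1 ≤ a ∧ a + 1 ≤ d
    · obtain ⟨s, hs, hs'⟩ := no_fact_of b (a := a) (a' := d - a)
        (H a (d - a) ha.1 (by omega) (by omega))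
      exact ⟨s, hs, fun _ _ => hs'⟩
    · exact ⟨1, one_ne_zero, fun h h' => absurd ⟨h, h'⟩ ha⟩
  choose s hs0 hs using hex
  let j0 : Fin N := ⟨0, hN⟩
  refine ⟨X j0 * ∏ a ∈ Finset.range d, s a, mul_ne_zero (X_ne_zero _)
    (Finset.prod_ne_zero_iff.2 fun a _ => hs0 a), fun t ht => ?_⟩
  rw [map_mul, map_prod, eval_X] at ht
  have ht0 := left_ne_zero_of_mul ht
  have ht1 := fun a ha => Finset.prod_ne_zero_iff.1 (right_ne_zero_of_mul ht) a ha
  obtain ⟨G, hG⟩ : ∃ G, G = ∑ j, t j • (b j : MvPolynomial (Fin 3) K) := ⟨_, rfl⟩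
  have hG0 : G ≠ 0 := by
    intro h0
    rw [hG] at h0
    have hli0 : LinearIndependent K (fun j => (b j : MvPolynomial (Fin 3) K)) :=
      b.linearIndependent.map' (Submodule.subtype _) (Submodule.ker_subtype _)
    exact ht0 (Fintype.linearIndependent_iff.1 hli0 t h0 j0)
  have hGh : G.IsHomogeneous d := by
    rw [hG]
    have : ∑ j, t j • (b j : MvPolynomial (Fin 3) K) ∈ forms w P d :=
      Submodule.sum_mem _ fun j _ => Submodule.smul_mem _ _ (b j).2
    exact (mem_forms.1 this).1
  rw [← hG]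
  have hdeg : G.totalDegree = d := hGh.totalDegree hG0
  constructor
  · intro hu
    have := deg_of_unit hu
    omega
  · intro f g hfg
    have hf0 : f ≠ 0 := by
      rintro rfl
      rw [zero_mul] at hfg
      exact hG0 hfg
    have hg0 : g ≠ 0 := by
      rintro rfl
      rw [mul_zero] at hfg
      exact hG0 hfg
    have hfh := Pool.Agent.Chud.homog_of_dvd hGh hG0 ⟨g, hfg⟩
    have hgh := Pool.Agent.Chud.homog_of_dvd hGh hG0 ⟨f, hfg.trans (mul_comm _ _)⟩
    have hsum : f.totalDegree + g.totalDegree = d := by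
      rw [← totalDegree_mul_of_isDomain hf0 hg0, ← hfg, hdeg]
    have hunit : ∀ p : MvPolynomial (Fin 3) K, p ≠ 0 → p.totalDegree = 0 → IsUnit p := by
      intro p hp0 hp
      obtain ⟨k, hk, rfl⟩ := unit_of_deg hp0 hp
      exact IsUnit.map C (Ne.isUnit hk)
    by_contra hcon
    push Not at hcon
    have hf1 : f.totalDegree ≠ 0 := fun h => hcon.1 (hunit f hf0 h)
    have hg1 : g.totalDegree ≠ 0 := fun h => hcon.2 (hunit g hg0 h)
    have hge : d - f.totalDegree = g.totalDegree := by omega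
    refine hs f.totalDegree (by omega) (by omega) t (ht1 _ (Finset.mem_range.2 (by omega))) f g hfh
      (by rw [hge]; exact hgh) ?_
    rw [← hfg, hG]

/-- **Theorem**: at points where all vectors constant on the groups are nonspecial, every such
system with at least two members has no common factor, and its general member is irreducible. -/
theorem general_sym {K : Type} [Field K] [CharZero K] {n : ℕ} {π v : Fin n → ℕ} (hv : Gc π v)
    (hπ : ∀ k : Fin n → ℕ, Gc π k → ∀ i, 10 * k i ≤ ∑ j, k j) {P : Fin n → Fin 2 → K} {d : ℕ}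
    (hE : Exp π P d) (hS : Sy P d) (h2 : 2 ≤ Module.finrank K ↥(forms v P d)) :
    (∀ g : MvPolynomial (Fin 3) K, (∀ G ∈ forms v P d, g ∣ G) → IsUnit g) ∧
      GeneralMember (forms v P d) Irreducible := by
  classical
  have hcom : ∀ g : MvPolynomial (Fin 3) K, (∀ G ∈ forms v P d, g ∣ G) → IsUnit g :=
    fun g hg => no_common hv hπ hE hS h2 hg
  refine ⟨hcom, fun N b => ?_⟩
  have hN : Module.finrank K ↥(forms v P d) = N := by
    rw [Module.finrank_eq_card_basis b, Fintype.card_fin]
  have hd : 1 ≤ d := by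
    by_contra hcon
    have h0 : d = 0 := by omega
    subst h0
    have h3 : Module.finrank K ↥(forms v P 0) ≤
        Module.finrank K ↥(homogeneousSubmodule (Fin 3) K 0) := by
      have := homog_finite (K := K) 0
      exact Submodule.finrank_mono inf_le_left
    rw [finrank_homog] at h3
    have : (0 + 2).choose 2 = 1 := rfl
    omega
  refine general_of_pairs hd (by omega) b ?_
  intro a a' ha ha' hab A B hA hB hG
  refine no_factO hv hπ hd hE hS (by omega) b (fun g hg => hcom g fun G hG => ?_) hA hB ha ha' hab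
    hG
  have h1 := b.sum_repr ⟨G, hG⟩
  have h2 := congrArg (Submodule.subtype _) h1
  rw [map_sum] at h2
  simp only [map_smul, Submodule.subtype_apply] at h2
  rw [← h2]
  refine Finset.dvd_sum fun j _ => ?_
  rw [MvPolynomial.smul_eq_C_mul]
  exact (hg j).mul_left _

end Pool.Agent.U810.GI
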