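import Pool.Agent.U810.GI.Core
import Pool.Agent.U810.IR.Elim

set_option autoImplicit false

/-! The general member of a symmetric nonspecial linear system without a common factor is
irreducible. -/

namespace Pool.Agent.U810.GI

open MvPolynomial Pool.Agent.H248R5 Pool.Agent.H248R6 Pool.Agent.U810.IR

/-- All vectors which are constant on the groups have the expected dimension at the points, over
all extensions of the field. -/
def Exp {K : Type} [Field K] {n : ℕ} (π : Fin n → ℕ) (P : Fin n → Fin 2 → K) (d : ℕ) : Prop :=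
  ∀ (L : Type) [Field L] [Algebra K L], ∀ k : Fin n → ℕ, Gc π k → (∀ i, k i ≤ d) → ∀ e ≤ d,
    Module.finrank L ↥(forms k (fun i a => algebraMap K L (P i a)) e) =
      (e + 2).choose 2 - ∑ i, (k i + 1).choose 2

/-- The dimensions do not change under permutations of the multiplicities. -/
def Sy {K : Type} [Field K] {n : ℕ} (P : Fin n → Fin 2 → K) (d : ℕ) : Prop :=
  ∀ u : Fin n → ℕ, (∀ i, u i ≤ d) → ∀ e ≤ d, ∀ σ : Equiv.Perm (Fin n),
    Module.finrank K ↥(forms (fun i => u (σ i)) P e) = Module.finrank K ↥(forms u P e)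

/-- the algebraic closure of the field of rational functions -/
abbrev Om (K : Type) [Field K] (N : ℕ) : Type :=
  AlgebraicClosure (FractionRing (MvPolynomial (Fin N) K))

theorem no_factO {K : Type} [Field K] [CharZero K] {n : ℕ} {π v : Fin n → ℕ} (hv : Gc π v)
    (hπ : ∀ k : Fin n → ℕ, Gc π k → ∀ i, 10 * k i ≤ ∑ j, k j) {P : Fin n → Fin 2 → K} {d : ℕ}
    (hd : 1 ≤ d) (hE : Exp π P d) (hS : Sy P d) {N : ℕ} (hN : 0 < N)
    (b : Module.Basis (Fin N) K ↥(forms v P d))
    (hgcd : ∀ g : MvPolynomial (Fin 3) K, (∀ j, g ∣ (b j : MvPolynomial (Fin 3) K)) → IsUnit g)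
    {A B : MvPolynomial (Fin 3) (Om K N)} {a a' : ℕ} (hA : A.IsHomogeneous a)
    (hB : B.IsHomogeneous a') (ha : 1 ≤ a) (ha' : 1 ≤ a') (hab : a + a' = d)
    (hG : A * B = ∑ j, algebraMap (MvPolynomial (Fin N) K) (Om K N) (X j) •
      MvPolynomial.map (algebraMap K (Om K N)) (b j : MvPolynomial (Fin 3) K)) : False := by
  classical
  obtain ⟨j0⟩ : Nonempty (Fin N) := ⟨⟨0, hN⟩⟩
  have hb0 : (b j0 : MvPolynomial (Fin 3) K) ≠ 0 := fun h => b.ne_zero j0 (Subtype.ext h)
  obtain ⟨G0, hG0⟩ : ∃ G0, G0 = MvPolynomial.map (algebraMap (MvPolynomial (Fin N) K)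
    (FractionRing (MvPolynomial (Fin N) K)))
      (∑ j, C (X j) * MvPolynomial.map C (b j : MvPolynomial (Fin 3) K)) := ⟨_, rfl⟩
  have hirr : Irreducible G0 := by
    rw [hG0]
    exact irr_generic (fun j => (b j : MvPolynomial (Fin 3) K)) hd
      (fun j => (mem_forms.1 (b j).2).1) j0 hb0 hgcd
  have hG0h : G0.IsHomogeneous d := by
    rw [hG0]
    refine IsHomogeneous.map ?_ _
    refine IsHomogeneous.sum _ _ _ fun j _ => ?_
    have h2 := (isHomogeneous_C (Fin 3) (X j : MvPolynomial (Fin N) K)).mul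
      ((mem_forms.1 (b j).2).1.map (C : K →+* MvPolynomial (Fin N) K))
    rwa [zero_add] at h2
  have hGG : A * B = MvPolynomial.map (algebraMap (FractionRing (MvPolynomial (Fin N) K))
      (Om K N)) G0 := by
    rw [hG, hG0, map_sum, map_sum]
    refine Finset.sum_congr rfl fun j _ => ?_
    rw [map_mul, map_mul, map_C, map_C, MvPolynomial.smul_eq_C_mul, MvPolynomial.map_map,
      MvPolynomial.map_map]
    congr 1
  obtain ⟨G, hGdef⟩ : ∃ G, G = A * B := ⟨_, rfl⟩
  have hG0' : G ≠ 0 := by
    rw [hGdef, hGG]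
    intro h0
    have hinj : Function.Injective (MvPolynomial.map (σ := Fin 3)
        (algebraMap (FractionRing (MvPolynomial (Fin N) K)) (Om K N))) :=
      MvPolynomial.map_injective _ (FaithfulSMul.algebraMap_injective _ _)
    exact hirr.ne_zero (hinj (h0.trans (map_zero _).symm))
  have hA0 : A ≠ 0 := left_ne_zero_of_mul (hGdef ▸ hG0')
  have hB0 : B ≠ 0 := right_ne_zero_of_mul (hGdef ▸ hG0')
  have hGh : G.IsHomogeneous d := by
    rw [hGdef, ← hab]
    exact hA.mul hB
  obtain ⟨PO, hPO⟩ : ∃ PO : Fin n → Fin 2 → Om K N, PO = fun i a => algebraMap K (Om K N) (P i a) :=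
    ⟨_, rfl⟩
  have hPO' : PO = fun i a => algebraMap (FractionRing (MvPolynomial (Fin N) K)) (Om K N)
      (algebraMap K (FractionRing (MvPolynomial (Fin N) K)) (P i a)) := by
    rw [hPO]
    funext i a
    exact IsScalarTower.algebraMap_apply K (FractionRing (MvPolynomial (Fin N) K)) (Om K N) _
  -- the derivations
  have : Algebra.FormallyEtale (MvPolynomial (Fin N) K) (FractionRing (MvPolynomial (Fin N) K)) :=
    Algebra.FormallyEtale.of_isLocalization (nonZeroDivisors (MvPolynomial (Fin N) K))
  have : Algebra.FormallyEtale (FractionRing (MvPolynomial (Fin N) K)) (Om K N) :=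
    Algebra.FormallyEtale.of_isSeparable _ _
  have : Algebra.FormallyEtale (MvPolynomial (Fin N) K) (Om K N) :=
    Algebra.FormallyEtale.comp _ (FractionRing (MvPolynomial (Fin N) K)) _
  have hex : ∀ i : Fin N, ∃ D' : Derivation K (Om K N) (Om K N),
      ∀ a : MvPolynomial (Fin N) K, D' (algebraMap _ (Om K N) a) =
        algebraMap _ (Om K N) (pderiv i a) := fun i => exists_derivation (pderiv i)
  choose D hD using hex
  have hD' : ∀ i j, D i (algebraMap (MvPolynomial (Fin N) K) (Om K N) (X j)) =
      if i = j then 1 else 0 := by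
    intro i l
    rw [hD, pderiv_X]
    by_cases hil : i = l
    · subst hil
      rw [Pi.single_eq_same, if_pos rfl, map_one]
    · rw [Pi.single_eq_of_ne (Ne.symm hil), if_neg hil, map_zero]
  -- the multiplicities of the generic member
  have hmem : ∀ w' : Fin n → ℕ, (∀ j, (b j : MvPolynomial (Fin 3) K) ∈ forms w' P d) →
      G ∈ forms w' PO d := by
    intro w' h
    rw [hGdef, hG, hPO]
    exact Submodule.sum_mem _ fun j _ => Submodule.smul_mem _ _ (map_mem_forms (h j))
  let w : Fin n → ℕ := fun i => mu PO G i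
  have hvw : ∀ i, v i ≤ w i := (mem_forms_iff hGh hG0').1 (hmem v fun j => (b j).2)
  have hbw : ∀ j, (b j : MvPolynomial (Fin 3) K) ∈ forms w P d := by
    intro j
    refine mem_forms.2 ⟨(mem_forms.1 (b j).2).1, fun i => ?_⟩
    rw [mem_pow_idealOfVars_iff']
    intro s hs
    have h1 : G ∈ forms w PO d := (mem_forms_iff hGh hG0').2 fun i => le_rfl
    have h2 := (mem_pow_idealOfVars_iff' _ _).1 ((mem_forms.1 h1).2 i) s hs
    have h3 : tau (PO i) G = ∑ j, algebraMap (MvPolynomial (Fin N) K) (Om K N) (X j) •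
        MvPolynomial.map (algebraMap K (Om K N)) (tau (P i) (b j : MvPolynomial (Fin 3) K)) := by
      rw [hGdef, hG, map_sum]
      refine Finset.sum_congr rfl fun j _ => ?_
      rw [map_smul, hPO, tau_map]
    rw [h3, coeff_sum] at h2
    have h4 := congrArg (D j) h2
    rw [map_sum, map_zero] at h4
    have e2 : ∀ l, D j (coeff s (algebraMap (MvPolynomial (Fin N) K) (Om K N) (X l) •
        MvPolynomial.map (algebraMap K (Om K N)) (tau (P i) (b l : MvPolynomial (Fin 3) K)))) =
        if j = l then algebraMap K (Om K N) (coeff s (tau (P i) (b l : MvPolynomial (Fin 3) K)))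
          else 0 := by
      intro l
      rw [coeff_smul, coeff_map, smul_eq_mul, Derivation.leibniz, Derivation.map_algebraMap,
        smul_zero, zero_add, hD', smul_eq_mul]
      split_ifs <;> simp
    rw [Finset.sum_congr rfl fun l _ => e2 l, Finset.sum_ite_eq] at h4
    simp only [Finset.mem_univ, if_true] at h4
    exact (map_eq_zero (algebraMap K (Om K N))).1 h4
  have hle : forms v P d ≤ forms w P d := by
    intro x hx
    have h1 := b.sum_repr ⟨x, hx⟩
    have h2 := congrArg (Submodule.subtype _) h1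
    rw [map_sum] at h2
    simp only [map_smul, Submodule.subtype_apply] at h2
    rw [← h2]
    exact Submodule.sum_mem _ fun j _ => Submodule.smul_mem _ _ (hbw j)
  have hwd : ∀ i, w i ≤ d := fun i => mu_le PO hGh hG0' i
  have hw : Gc π w := sym hv hvw hle
    (fun w' h => (mem_forms_iff hGh hG0').1 (hmem w' fun j => h (b j).2)) (hS w hwd d le_rfl)
  have heq : forms v P d = forms w P d := le_antisymm hle fun x hx => forms_anti hvw hx
  have hNK : Module.finrank K ↥(forms v P d) = N := by
    rw [Module.finrank_eq_card_basis b, Fintype.card_fin]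
  have hNw : N + ∑ i, (w i + 1).choose 2 = (d + 2).choose 2 := by
    have h1 := hE K w hw hwd d le_rfl
    have h2 : Module.finrank K ↥(forms w P d) = N := by rw [← heq, hNK]
    have h3 : (fun i a => algebraMap K K (P i a)) = P := rfl
    rw [h3, h2] at h1
    omega
  have hNO : Module.finrank (Om K N) ↥(forms v PO d) = N := by
    have h1 := hE (Om K N) v hv (fun i => (hvw i).trans (hwd i)) d le_rfl
    have h2 := hE K v hv (fun i => (hvw i).trans (hwd i)) d le_rfl
    have h3 : (fun i a => algebraMap K K (P i a)) = P := rfl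
    rw [h3, hNK] at h2
    rw [← hPO, ← h2] at h1
    exact h1
  -- the factors
  let u : Fin n → ℕ := fun i => mu PO A i
  let u' : Fin n → ℕ := fun i => mu PO B i
  have huu : ∀ i, w i = u i + u' i := by
    intro i
    change mu PO G i = mu PO A i + mu PO B i
    rw [hGdef]
    exact mu_mul PO hA hA0 hB hB0 i
  have hsA : ∀ i, d * u i = w i * a := by
    intro i
    have h1 := slopes (fun i a => algebraMap K (FractionRing (MvPolynomial (Fin N) K)) (P i a))
      hirr hG0h i hGG
    rw [← hPO', ← hGG, ← hGdef, hA.totalDegree hA0] at h1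
    exact h1
  have hsB : ∀ i, d * u' i = w i * a' := by
    intro i
    have h1 := slopes (fun i a => algebraMap K (FractionRing (MvPolynomial (Fin N) K)) (P i a))
      hirr hG0h i ((mul_comm B A).trans hGG)
    rw [← hPO', ← hGG, ← hGdef, hB.totalDegree hB0] at h1
    exact h1
  have hu : Gc π u := by
    intro i j hij
    have h1 := hsA i
    have h2 := hsA j
    rw [hw i j hij, ← h2] at h1
    exact Nat.eq_of_mul_eq_mul_left (by omega) h1
  have hu' : Gc π u' := by
    intro i j hij
    have h1 := hsB i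
    have h2 := hsB j
    rw [hw i j hij, ← h2] at h1
    exact Nat.eq_of_mul_eq_mul_left (by omega) h1
  have hAm : A ∈ forms u PO a := (mem_forms_iff hA hA0).2 fun i => le_rfl
  have hBm : B ∈ forms u' PO a' := (mem_forms_iff hB hB0).2 fun i => le_rfl
  have hall' := hall b (L := Om K N) (u := u) (u' := u') (A := A) (B := B) (a := a) (a' := a')
    (by rw [← hPO]; exact hNO)
    (fun j => algebraMap (MvPolynomial (Fin N) K) (Om K N) (X j)) D hD'
    (by rw [← hPO]; exact hAm) (by rw [← hPO]; exact hBm) hG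
  rw [← hPO] at hall'
  have hdim := dim_fact hAm hBm hB0 hall'
  rw [hNO] at hdim
  have hpos : ∀ (x : Fin n → ℕ) (c : ℕ) (Q : MvPolynomial (Fin 3) (Om K N)), Q ≠ 0 →
      Q ∈ forms x PO c → Gc π x → (∀ i, x i ≤ d) → c ≤ d →
      Module.finrank (Om K N) ↥(forms x PO c) + ∑ i, (x i + 1).choose 2 = (c + 2).choose 2 := by
    intro x c Q hQ0 hQ hx hxd hc
    have h1 := hE (Om K N) x hx hxd c hc
    rw [← hPO] at h1
    have hfin := forms_finite x PO c
    have : Nontrivial ↥(forms x PO c) := ⟨⟨⟨Q, hQ⟩, 0, fun h => hQ0 (congrArg Subtype.val h)⟩⟩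
    have h2 := Module.finrank_pos (R := Om K N) (M := ↥(forms x PO c))
    omega
  have h1 := hpos u' a' B hB0 hBm hu' (fun i => (mu_le PO hB hB0 i).trans (by omega)) (by omega)
  have h2 := hpos u a A hA0 hAm hu (fun i => (mu_le PO hA hA0 i).trans (by omega)) (by omega)
  have h3 : N + ∑ i, (u i + u' i + 1).choose 2 = (a + a' + 2).choose 2 := by
    rw [hab, ← hNw]
    congr 1
    exact Finset.sum_congr rfl fun i _ => by rw [huu i]
  have h4 := num_fact h1 h2 h3 hdim
  have h5 := pos (hπ w hw) hd (by omega)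
  have h6 : d * d * ∑ i, u i * u' i = a * a' * ∑ i, w i * w i := by
    rw [Finset.mul_sum, Finset.mul_sum]
    refine Finset.sum_congr rfl fun i _ => ?_
    calc d * d * (u i * u' i) = (d * u i) * (d * u' i) := by ring
      _ = (w i * a) * (w i * a') := by rw [hsA, hsB]
      _ = a * a' * (w i * w i) := by ring
  have h7 : a * a' * ∑ i, w i * w i < a * a' * (d * d) :=
    Nat.mul_lt_mul_of_pos_left h5 (Nat.mul_pos (by omega) (by omega))
  have h8 : d * d * (a * a') ≤ d * d * ∑ i, u i * u' i := Nat.mul_le_mul_left _ h4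
  have h9 : d * d * (a * a') = a * a' * (d * d) := Nat.mul_comm _ _
  omega

end Pool.Agent.U810.GI
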