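import Pool.Agent.U810.GI.Special
import Pool.Agent.U810.GI.General

set_option autoImplicit false

/-! One irreducible member makes the general member irreducible. -/

namespace Pool.Agent.U810.GI

open MvPolynomial Finset Pool.Agent.H248R5 Pool.Agent.H248R6

theorem general_of_one {K : Type} [Field K] [CharZero K] [IsAlgClosed K] {n : ℕ} {u : Fin n → ℕ}
    {P : Fin n → Fin 2 → K} {d : ℕ} {G : MvPolynomial (Fin 3) K} (hG : G ∈ forms u P d)
    (hirr : Irreducible G) : GeneralMember (forms u P d) Irreducible := by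
  classical
  intro N b
  have hG0 : G ≠ 0 := hirr.ne_zero
  have hGh : G.IsHomogeneous d := (mem_forms.1 hG).1
  have hunit : ∀ (A : MvPolynomial (Fin 3) K) (a : ℕ), A.IsHomogeneous a → 1 ≤ a → ¬ IsUnit A := by
    intro A a hA ha hu
    have h1 := hA.totalDegree hu.ne_zero
    have h2 : A.totalDegree = 0 := by
      obtain ⟨r, -, hr⟩ := MvPolynomial.isUnit_iff_eq_C_of_isReduced.1 hu
      rw [hr, totalDegree_C]
    omega
  have hd : 1 ≤ d := by
    by_contra hcon
    have h0 : d = 0 := by omega
    subst h0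
    have h1 : G = C (coeff 0 G) := (totalDegree_eq_zero_iff_eq_C).1 (hGh.totalDegree hG0)
    apply hirr.not_isUnit
    rw [h1]
    refine (IsUnit.mk0 _ fun h2 => hG0 ?_).map C
    rw [h1, h2, map_zero]
  have hsumG : ∑ j, b.repr ⟨G, hG⟩ j • (b j : MvPolynomial (Fin 3) K) = G := by
    have h2 := congrArg (Submodule.subtype _) (b.sum_repr ⟨G, hG⟩)
    rw [map_sum] at h2
    simp only [map_smul, Submodule.subtype_apply] at h2
    exact h2
  have hN : 0 < N := by
    rcases Nat.eq_zero_or_pos N with h | h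
    · subst h
      rw [Fin.sum_univ_zero] at hsumG
      exact absurd hsumG.symm hG0
    · exact h
  refine general_of_pairs hd hN b ?_
  intro a a' ha ha' hab A B hA hB hAB
  obtain ⟨g, hg⟩ : ∃ g : MvPolynomial (Fin 3) (MvPolynomial (Fin N) K), g =
      ∑ j, (X j : MvPolynomial (Fin N) K) • MvPolynomial.map C (b j : MvPolynomial (Fin 3) K) :=
    ⟨_, rfl⟩
  have hg1 : A * B = MvPolynomial.map (algebraMap (MvPolynomial (Fin N) K) (Om K N)) g := by
    rw [hAB, hg, map_sum]
    refine Finset.sum_congr rfl fun j _ => ?_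
    rw [MvPolynomial.smul_eq_C_mul, MvPolynomial.smul_eq_C_mul, map_mul, map_C, MvPolynomial.map_map]
    rfl
  have hg2 : MvPolynomial.map (eval (fun j => b.repr ⟨G, hG⟩ j)) g = G := by
    conv_rhs => rw [← hsumG]
    rw [hg, map_sum]
    refine Finset.sum_congr rfl fun j _ => ?_
    rw [MvPolynomial.smul_eq_C_mul, map_mul, map_C, eval_X, MvPolynomial.map_map, MvPolynomial.smul_eq_C_mul]
    congr 1
    have h3 : (eval fun j => b.repr ⟨G, hG⟩ j).comp (C : K →+* MvPolynomial (Fin N) K) =
        RingHom.id K := RingHom.ext fun x => by simp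
    rw [h3, map_id]
  have hinj : Function.Injective (algebraMap (MvPolynomial (Fin N) K) (Om K N)) := by
    rw [IsScalarTower.algebraMap_eq (MvPolynomial (Fin N) K)
      (FractionRing (MvPolynomial (Fin N) K)) (Om K N)]
    exact (algebraMap (FractionRing (MvPolynomial (Fin N) K)) (Om K N)).injective.comp
      (IsFractionRing.injective _ _)
  obtain ⟨A', B', hA', hB', hAB'⟩ := special hinj (eval (fun j => b.repr ⟨G, hG⟩ j))
    (fun x => ⟨C x, eval_C _⟩) hA hB hg1 (by rw [hg2]; exact hG0)
  rw [hg2] at hAB'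
  rcases hirr.isUnit_or_isUnit hAB'.symm with h | h
  · exact hunit _ _ hA' ha h
  · exact hunit _ _ hB' ha' h

end Pool.Agent.U810.GI
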