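import Pool.Agent.U810.GI.General
import Pool.Agent.U810.IR.Final

set_option autoImplicit false

/-! The symmetric situation at general points. -/

namespace Pool.Agent.U810.GI

open MvPolynomial Finset Pool.Agent.H248R5 Pool.Agent.H248R6 Pool.Agent.H932R3
  Pool.Agent.TH442.NF Pool.Agent.Y939.NC Pool.Agent.U810.IR

theorem forms_perm {K : Type} [Field K] {n : ℕ} (u : Fin n → ℕ) (P : Fin n → Fin 2 → K) (e : ℕ)
    (σ : Equiv.Perm (Fin n)) :
    forms (fun i => u (σ i)) P e = forms u (fun i => P (σ.symm i)) e := by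
  ext G
  rw [mem_forms, mem_forms]
  refine and_congr_right fun _ => ?_
  constructor
  · intro h i
    have := h (σ.symm i)
    rwa [Equiv.apply_symm_apply] at this
  · intro h i
    have := h (σ i)
    rwa [Equiv.symm_apply_apply] at this

/-- the generic dimensions -/
theorem dim_forms {n : ℕ} (w : Fin n → ℕ) (d : ℕ) :
    ∃ (g : ℕ) (F : MvPolynomial (Fin n × Fin 2) ℚ), F ≠ 0 ∧
      ∀ (K : Type) [Field K] [CharZero K] (P : Fin n → Fin 2 → K),
        aeval (fun ij : Fin n × Fin 2 => P ij.1 ij.2) F ≠ 0 →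
        Module.finrank K ↥(forms w P d) = g := by
  obtain ⟨g, F, hF, h⟩ := Pool.Agent.TH167.SH.dim_gen w d
  refine ⟨g, F, hF, fun K _ _ P hP => ?_⟩
  rw [← h K P hP, Pool.Agent.W609.CR.vs_eq_forms]

theorem sy_open (n d : ℕ) : ∃ F : MvPolynomial (Fin n × Fin 2) ℚ, F ≠ 0 ∧
    ∀ (K : Type) [Field K] [CharZero K] (P : Fin n → Fin 2 → K),
      aeval (fun ij : Fin n × Fin 2 => P ij.1 ij.2) F ≠ 0 → Sy P d := by
  classical
  choose g F hF h using fun (w : Fin n → ℕ) (e : ℕ) => dim_forms w e
  refine ⟨∏ q : Fin (d + 1) × (Fin n → Fin (d + 1)), F (fun i => (q.2 i).1) q.1.1,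
    prod_ne_zero_iff.2 fun _ _ => hF _ _, fun K _ _ P hP u hu e he σ => ?_⟩
  rw [map_prod, prod_ne_zero_iff] at hP
  have key : ∀ x : Fin n → ℕ, (∀ i, x i ≤ d) → Module.finrank K ↥(forms x P e) = g x e := by
    intro x hx
    refine h x e K P ?_
    exact hP (⟨e, by omega⟩, fun i => ⟨x i, by have := hx i; omega⟩) (mem_univ _)
  rw [key _ fun i => hu _, key _ hu]
  obtain ⟨K0, _, _, P0, hP0⟩ := exists_generic n
  have hP1 : AlgebraicIndependent ℚ
      (fun ij : Fin n × Fin 2 => (fun i => P0 (σ.symm i)) ij.1 ij.2) := by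
    have h1 := hP0.comp (fun ij : Fin n × Fin 2 => (σ.symm ij.1, ij.2)) (by
      rintro ⟨i, a⟩ ⟨j, b⟩ hij
      simp only [Prod.mk.injEq, EmbeddingLike.apply_eq_iff_eq] at hij
      exact Prod.ext hij.1 hij.2)
    exact h1
  rw [← h (fun i => u (σ i)) e K0 P0 fun h0 => hF _ _ (hP0.eq_zero_of_aeval_eq_zero _ h0),
    ← h u e K0 (fun i => P0 (σ.symm i)) fun h0 => hF _ _ (hP1.eq_zero_of_aeval_eq_zero _ h0),
    forms_perm]

theorem exp_open {n : ℕ} (π : Fin n → ℕ) (d : ℕ)
    (H : ∀ k : Fin n → ℕ, Gc π k → ∀ e : ℕ, ∀ {K : Type} [Field K] [CharZero K]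
      {P : Fin n → Fin 2 → K}, AlgebraicIndependent ℚ (fun ij : Fin n × Fin 2 => P ij.1 ij.2) →
      ExpDim K k P e) :
    ∃ F : MvPolynomial (Fin n × Fin 2) ℚ, F ≠ 0 ∧
    ∀ (K : Type) [Field K] [CharZero K] (P : Fin n → Fin 2 → K),
      aeval (fun ij : Fin n × Fin 2 => P ij.1 ij.2) F ≠ 0 → Exp π P d := by
  classical
  have hex : ∀ (k : Fin n → ℕ) (e : ℕ), ∃ F : MvPolynomial (Fin n × Fin 2) ℚ, F ≠ 0 ∧
      (Gc π k → ∀ {L : Type} [Field L] [CharZero L] (P : Fin n → Fin 2 → L),
        aeval (fun ij : Fin n × Fin 2 => P ij.1 ij.2) F ≠ 0 → ExpDim L k P e) := by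
    intro k e
    by_cases hk : Gc π k
    · obtain ⟨F, hF, hF'⟩ := to_open (d := e) (w := k) (H k hk e)
      exact ⟨F, hF, fun _ => hF'⟩
    · exact ⟨1, one_ne_zero, fun h => absurd h hk⟩
  choose F hF h using hex
  refine ⟨∏ q : Fin (d + 1) × (Fin n → Fin (d + 1)), F (fun i => (q.2 i).1) q.1.1,
    prod_ne_zero_iff.2 fun _ _ => hF _ _, fun K _ _ P hP L _ _ k hk hkd e he => ?_⟩
  rw [map_prod, prod_ne_zero_iff] at hP
  have hchar : CharZero L := charZero_of_injective_algebraMap (algebraMap K L).injective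
  have h1 := hP (⟨e, by omega⟩, fun i => ⟨k i, by have := hkd i; omega⟩) (mem_univ _)
  have h2 : aeval (fun ij : Fin n × Fin 2 => (fun i a => algebraMap K L (P i a)) ij.1 ij.2)
      (F k e) ≠ 0 := by
    have h3 : aeval (fun ij : Fin n × Fin 2 => algebraMap K L (P ij.1 ij.2)) (F k e) =
        algebraMap K L (aeval (fun ij : Fin n × Fin 2 => P ij.1 ij.2) (F k e)) :=
      aeval_algebraMap_apply _ _ _
    change aeval (fun ij : Fin n × Fin 2 => algebraMap K L (P ij.1 ij.2)) (F k e) ≠ 0
    rw [h3]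
    exact (map_ne_zero _).2 h1
  exact h k e hk (fun i a => algebraMap K L (P i a)) h2

/-- Equal multiplicities at `13`, `16`, `21` or at least `36` points, or several multiplicities, each
of them at many points. -/
def Grouped {n : ℕ} (v : Fin n → ℕ) : Prop :=
  ((36 ≤ n ∨ n = 13 ∨ n = 16 ∨ n = 21) ∧ ∀ i j, v i = v j) ∨
  ∀ i, 320000 * (univ.image v).card ≤ (univ.filter fun j => v j = v i).card

theorem grouped_ten {n : ℕ} {v : Fin n → ℕ} (hv : Grouped v) (k : Fin n → ℕ) (hk : Gc v k)
    (i : Fin n) : 10 * k i ≤ ∑ j, k j := by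
  have h1 : (univ.filter fun j => v j = v i).card * k i ≤ ∑ j, k j := by
    rw [← smul_eq_mul, ← sum_const]
    calc ∑ j ∈ univ.filter (fun j => v j = v i), k i =
        ∑ j ∈ univ.filter (fun j => v j = v i), k j :=
          sum_congr rfl fun j hj => hk _ _ (mem_filter.1 hj).2.symm
      _ ≤ ∑ j, k j := sum_le_sum_of_subset (filter_subset _ _)
  have h2 : 10 ≤ (univ.filter fun j => v j = v i).card := by
    rcases hv with ⟨hn, h⟩ | h
    · have h3 : (univ.filter fun j => v j = v i) = univ := by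
        ext j
        simp [h j i]
      rw [h3, card_univ, Fintype.card_fin]
      omega
    · have h3 := h i
      have h4 : 1 ≤ (univ.image v).card := card_pos.2 ⟨v i, mem_image_of_mem _ (mem_univ _)⟩
      omega
  exact (Nat.mul_le_mul_right _ h2).trans h1

theorem grouped_exp {n : ℕ} {v : Fin n → ℕ} (hv : Grouped v) (k : Fin n → ℕ) (hk : Gc v k)
    (e : ℕ) {K : Type} [Field K] [CharZero K] {P : Fin n → Fin 2 → K}
    (hP : AlgebraicIndependent ℚ (fun ij : Fin n × Fin 2 => P ij.1 ij.2)) : ExpDim K k P e := by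
  classical
  by_cases hk0 : ∀ i, k i = 0
  · have h0 : k = fun _ => 0 := funext hk0
    rw [h0]
    exact exp_zero P e
  push Not at hk0
  obtain ⟨i0, hi0⟩ := hk0
  rcases hv with ⟨hn, h⟩ | h
  · have hconst : ∀ i, k i = k i0 := fun i => hk _ _ (h i i0)
    have hreg : Regular 150 k := by
      by_cases h37 : 37 ≤ n ∨ n = 21
      · exact Or.inl ⟨h37, k i0, by omega, hconst⟩
      · refine Or.inr (Or.inl ⟨Or.inr (Or.inr ?_), k i0, by omega, fun i => Or.inl (hconst i)⟩)
        have h3 : n = 36 ∨ n = 13 ∨ n = 16 := by omega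
        rcases h3 with rfl | rfl | rfl
        · exact ⟨0, Or.inr (Or.inl (by norm_num))⟩
        · exact ⟨0, Or.inr (Or.inr (by norm_num))⟩
        · exact ⟨0, Or.inl (by norm_num)⟩
    obtain ⟨F, hF, hF'⟩ := reg150 n k hreg K
    exact hF' P (fun h0 => hF (hP.eq_zero_of_aeval_eq_zero F h0)) e
  · -- the support
    obtain ⟨S, hS⟩ : ∃ S : Finset (Fin n), S = univ.filter fun i => k i ≠ 0 := ⟨_, rfl⟩
    have hi0S : i0 ∈ S := by rw [hS]; simp [hi0]
    have hcard : 0 < S.card := card_pos.2 ⟨i0, hi0S⟩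
    have hmemS : ∀ x, x ∈ S → k x ≠ 0 := fun x hx => by
      rw [hS] at hx
      exact (mem_filter.1 hx).2
    obtain ⟨μ, hμ⟩ : ∃ μ, μ = S.sup k := ⟨_, rfl⟩
    obtain ⟨i1, hi1, hi1'⟩ := exists_mem_eq_sup S ⟨i0, hi0S⟩ k
    have hmax : ∀ i, k i ≤ μ := by
      intro i
      by_cases hi : i ∈ S
      · rw [hμ]
        exact le_sup hi
      · rw [hS] at hi
        simp only [mem_filter, mem_univ, true_and, not_not] at hi
        omega
    refine almost_exp reg150 ⟨S.card, (S.orderEmbOfFin rfl).toEmbedding, ?_, ?_⟩ hP e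
    · refine Or.inr (Or.inr (Or.inl ⟨hcard, fun j => ?_, μ, (univ.image v).card, fun j => hmax _,
        ?_, ?_⟩))
      · exact Nat.one_le_iff_ne_zero.2 (hmemS _ (orderEmbOfFin_mem S rfl j))
      · have h1 : (univ.image fun j : Fin S.card => k ((S.orderEmbOfFin rfl).toEmbedding j)) ⊆
            (univ.image k) := by
          intro x hx
          obtain ⟨j, -, rfl⟩ := mem_image.1 hx
          exact mem_image_of_mem _ (mem_univ _)
        refine (card_le_card h1).trans ?_
        have h2 : ∃ f : ℕ → ℕ, ∀ i, k i = f (v i) := by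
          refine ⟨fun x => if hx : ∃ i, v i = x then k hx.choose else 0, fun i => ?_⟩
          have hx : ∃ j, v j = v i := ⟨i, rfl⟩
          simp only [dif_pos hx]
          exact hk _ _ hx.choose_spec.symm
        obtain ⟨f, hf⟩ := h2
        have h3 : univ.image k = (univ.image v).image f := by
          ext x
          simp only [mem_image, mem_univ, true_and, exists_exists_eq_and, hf]
        rw [h3]
        exact card_image_le
      · have h1 := h i1
        have h2 : ∑ j : Fin S.card, k ((S.orderEmbOfFin rfl).toEmbedding j) ^ 2 =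
            ∑ i ∈ S, k i ^ 2 := by
          have h3 : S = univ.map (S.orderEmbOfFin rfl).toEmbedding := by
            ext x
            constructor
            · intro hx
              have h4 : x ∈ Set.range (S.orderEmbOfFin rfl) := by
                rw [range_orderEmbOfFin]
                exact hx
              obtain ⟨j, hj⟩ := h4
              exact mem_map.2 ⟨j, mem_univ _, hj⟩
            · intro hx
              obtain ⟨j, -, rfl⟩ := mem_map.1 hx
              exact orderEmbOfFin_mem S rfl j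
          conv_rhs => rw [h3, sum_map]
        rw [h2]
        have h4 : (univ.filter fun j => v j = v i1) ⊆ S := by
          intro j hj
          have h5 := hk _ _ (mem_filter.1 hj).2
          rw [hS] at hi1 ⊢
          rw [mem_filter] at hi1 ⊢
          exact ⟨mem_univ _, by rw [h5]; exact hi1.2⟩
        calc 40000 * (univ.image v).card * μ ^ 2 ≤
            (univ.filter fun j => v j = v i1).card * μ ^ 2 := Nat.mul_le_mul_right _ (by omega)
          _ = ∑ j ∈ univ.filter (fun j => v j = v i1), k j ^ 2 := by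
            rw [← smul_eq_mul, ← sum_const]
            refine sum_congr rfl fun j hj => ?_
            rw [hk _ _ (mem_filter.1 hj).2, hμ, hi1']
          _ ≤ ∑ i ∈ S, k i ^ 2 := sum_le_sum_of_subset h4
    · intro i hi
      have h1 : i ∉ S := by
        intro h2
        apply hi
        have h4 : i ∈ Set.range (S.orderEmbOfFin rfl) := by
          rw [range_orderEmbOfFin]
          exact h2
        obtain ⟨j, hj⟩ := h4
        exact ⟨j, hj⟩
      rw [hS] at h1
      simp only [mem_filter, mem_univ, true_and, not_not] at h1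
      omega

/-- **Theorem.** -/
theorem grouped_irr {n d : ℕ} {v : Fin n → ℕ} (hv : Grouped v) :
    ∃ F : MvPolynomial (Fin n × Fin 2) ℚ, F ≠ 0 ∧ ∀ (K : Type) [Field K] [CharZero K]
      (P : Fin n → Fin 2 → K), aeval (fun ij : Fin n × Fin 2 => P ij.1 ij.2) F ≠ 0 →
      ExpDim K v P d ∧ (2 ≤ Module.finrank K ↥(forms v P d) →
        (∀ g : MvPolynomial (Fin 3) K, (∀ G ∈ forms v P d, g ∣ G) → IsUnit g) ∧
          GeneralMember (forms v P d) Irreducible) := by
  obtain ⟨F1, hF1, h1⟩ := exp_open v d fun k hk e {K} _ _ P hP => grouped_exp hv k hk e hP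
  obtain ⟨F2, hF2, h2⟩ := sy_open n d
  obtain ⟨F3, hF3, h3⟩ := to_open (d := d) (w := v) fun {K} _ _ P hP =>
    grouped_exp hv v (fun i j h => h) d hP
  refine ⟨F1 * F2 * F3, mul_ne_zero (mul_ne_zero hF1 hF2) hF3, fun K _ _ P hP => ?_⟩
  rw [map_mul, map_mul] at hP
  have g1 := h1 K P (left_ne_zero_of_mul (left_ne_zero_of_mul hP))
  have g2 := h2 K P (right_ne_zero_of_mul (left_ne_zero_of_mul hP))
  have g3 := h3 (L := K) P (right_ne_zero_of_mul hP)
  exact ⟨g3, fun hdim => general_sym (π := v) (fun i j h => h) (grouped_ten hv) g1 g2 hdim⟩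

end Pool.Agent.U810.GI
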