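import Pool.Agent.U810.IR.Gen

set_option autoImplicit false

/-! The multiplicities of a form at the points. -/

namespace Pool.Agent.U810.GI

open MvPolynomial Pool.Agent.H248R5 Pool.Agent.H248R6 Pool.Agent.U810.IR

variable {L : Type*} [Field L]

/-- the order at the origin -/
noncomputable def ord (f : MvPolynomial (Fin 2) L) : ℕ∞ := (f : MvPowerSeries (Fin 2) L).order

theorem mem_iff (f : MvPolynomial (Fin 2) L) (k : ℕ) :
    f ∈ (idealOfVars (Fin 2) L) ^ k ↔ (k : ℕ∞) ≤ ord f := by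
  unfold ord
  rw [mem_pow_idealOfVars_iff']
  constructor
  · intro h
    apply MvPowerSeries.nat_le_order
    intro d hd
    rw [MvPolynomial.coeff_coe]
    exact h d hd
  · intro h b hb
    have h1 := MvPowerSeries.coeff_of_lt_order (f := (f : MvPowerSeries (Fin 2) L)) (d := b)
      (lt_of_lt_of_le (by exact_mod_cast hb) h)
    rw [MvPolynomial.coeff_coe] at h1
    exact h1

theorem ord_mul (f g : MvPolynomial (Fin 2) L) : ord (f * g) = ord f + ord g := by
  unfold ord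
  rw [MvPolynomial.coe_mul, MvPowerSeries.order_mul]

theorem ord_ne_top {f : MvPolynomial (Fin 2) L} (hf : f ≠ 0) : ord f ≠ ⊤ := by
  unfold ord
  rw [Ne, MvPowerSeries.order_eq_top_iff, MvPolynomial.coe_eq_zero_iff]
  exact hf

theorem tau_ne_zero {p : Fin 2 → L} {A : MvPolynomial (Fin 3) L} {a : ℕ} (hA : A.IsHomogeneous a)
    (hA0 : A ≠ 0) : tau p A ≠ 0 := by
  intro h
  have hH : (H932R2.tr (p 0) (p 1) A).IsHomogeneous a := H932R2.tr_homog hA
  have h1 : H932R2.tr (p 0) (p 1) A = 0 := by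
    ext α
    rw [coeff_zero]
    by_contra hα
    have h2 := coeff_dh hH hα
    rw [dh_tr, h, coeff_zero] at h2
    exact hα h2.symm
  have h2 := H932R2.tr_tr (p 0) (p 1) A
  rw [h1, map_zero] at h2
  exact hA0 h2.symm

/-- the multiplicity at a point -/
noncomputable def mu {n : ℕ} (P : Fin n → Fin 2 → L) (A : MvPolynomial (Fin 3) L) (i : Fin n) : ℕ :=
  (ord (tau (P i) A)).toNat

theorem coe_mu {n : ℕ} (P : Fin n → Fin 2 → L) {A : MvPolynomial (Fin 3) L} {a : ℕ}
    (hA : A.IsHomogeneous a) (hA0 : A ≠ 0) (i : Fin n) : (mu P A i : ℕ∞) = ord (tau (P i) A) :=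
  ENat.natCast_toNat (ord_ne_top (tau_ne_zero hA hA0))

theorem mem_forms_iff {n : ℕ} {P : Fin n → Fin 2 → L} {A : MvPolynomial (Fin 3) L} {a : ℕ}
    (hA : A.IsHomogeneous a) (hA0 : A ≠ 0) {u : Fin n → ℕ} :
    A ∈ forms u P a ↔ ∀ i, u i ≤ mu P A i := by
  rw [mem_forms]
  constructor
  · rintro ⟨-, h⟩ i
    have h1 := (mem_iff _ _).1 (h i)
    rw [← coe_mu P hA hA0 i] at h1
    exact_mod_cast h1
  · intro h
    refine ⟨hA, fun i => (mem_iff _ _).2 ?_⟩
    rw [← coe_mu P hA hA0 i]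
    exact_mod_cast h i

theorem mu_mul {n : ℕ} (P : Fin n → Fin 2 → L) {A B : MvPolynomial (Fin 3) L} {a b : ℕ}
    (hA : A.IsHomogeneous a) (hA0 : A ≠ 0) (hB : B.IsHomogeneous b) (hB0 : B ≠ 0) (i : Fin n) :
    mu P (A * B) i = mu P A i + mu P B i := by
  have h1 := coe_mu P (hA.mul hB) (mul_ne_zero hA0 hB0) i
  rw [map_mul, ord_mul, ← coe_mu P hA hA0 i, ← coe_mu P hB hB0 i] at h1
  exact_mod_cast h1

end Pool.Agent.U810.GI
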