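import Pool.Agent.U810.GI.Gal

set_option autoImplicit false

/-! The generic member of a linear system without a common factor is irreducible over the field of
rational functions. -/

namespace Pool.Agent.U810.GI

open MvPolynomial

variable {K : Type} [Field K]

theorem irr_lin {N : ℕ} (b : Fin N → MvPolynomial (Fin 3) K) (j0 : Fin N) (hj0 : b j0 ≠ 0)
    (hgcd : ∀ g, (∀ j, g ∣ b j) → IsUnit g) :
    Irreducible (∑ j, X j * C (b j) : MvPolynomial (Fin N) (MvPolynomial (Fin 3) K)) := by
  classical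
  obtain ⟨G, hG⟩ : ∃ G : MvPolynomial (Fin N) (MvPolynomial (Fin 3) K),
    G = ∑ j, X j * C (b j) := ⟨_, rfl⟩
  rw [← hG]
  have hcoef : ∀ j, coeff (Finsupp.single j 1) G = b j := by
    intro j
    rw [hG, coeff_sum]
    have h1 : ∀ i, coeff (Finsupp.single j 1) (X i * C (b i) :
        MvPolynomial (Fin N) (MvPolynomial (Fin 3) K)) = if i = j then b i else 0 := by
      intro i
      rw [mul_comm, coeff_C_mul, coeff_X]
      by_cases hij : i = j
      · subst hij
        simp
      · rw [if_neg, if_neg hij, mul_zero]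
        intro h
        exact hij ((Finsupp.single_left_injective one_ne_zero) h)
    rw [Finset.sum_congr rfl fun i _ => h1 i, Finset.sum_ite_eq']
    simp
  have hG0 : G ≠ 0 := by
    intro h0
    have := hcoef j0
    rw [h0, coeff_zero] at this
    exact hj0 this.symm
  have hGh : G.IsHomogeneous 1 := by
    rw [hG]
    refine IsHomogeneous.sum _ _ _ fun j _ => ?_
    exact (isHomogeneous_X _ j).mul (isHomogeneous_C _ _)
  have hGd : G.totalDegree = 1 := hGh.totalDegree hG0
  have key : ∀ P Q : MvPolynomial (Fin N) (MvPolynomial (Fin 3) K), G = P * Q →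
      P.totalDegree = 0 → IsUnit P := by
    intro P Q h h0
    rw [totalDegree_eq_zero_iff_eq_C] at h0
    rw [h0]
    refine IsUnit.map C (hgcd _ fun j => ?_)
    refine ⟨coeff (Finsupp.single j 1) Q, ?_⟩
    have h1 := hcoef j
    rw [h, h0, coeff_C_mul] at h1
    rw [← h1]
  constructor
  · intro hu
    obtain ⟨x, -, hx⟩ := MvPolynomial.isUnit_iff_eq_C_of_isReduced.1 hu
    rw [hx, totalDegree_C] at hGd
    omega
  · intro P Q h
    have hP0 : P ≠ 0 := by
      rintro rfl
      rw [zero_mul] at h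
      exact hG0 h
    have hQ0 : Q ≠ 0 := by
      rintro rfl
      rw [mul_zero] at h
      exact hG0 h
    have h1 := totalDegree_mul_of_isDomain hP0 hQ0
    rw [← h, hGd] at h1
    rcases Nat.eq_zero_or_pos P.totalDegree with h2 | h2
    · exact Or.inl (key P Q h h2)
    · exact Or.inr (key Q P (h.trans (mul_comm _ _)) (by omega))

theorem irr_R {N : ℕ} (b : Fin N → MvPolynomial (Fin 3) K) (j0 : Fin N) (hj0 : b j0 ≠ 0)
    (hgcd : ∀ g, (∀ j, g ∣ b j) → IsUnit g) :
    Irreducible (∑ j, C (X j) * MvPolynomial.map C (b j) :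
      MvPolynomial (Fin 3) (MvPolynomial (Fin N) K)) := by
  classical
  rw [← MulEquiv.irreducible_iff (commAlgEquiv K (Fin 3) (Fin N)), map_sum]
  have h1 : ∀ j, commAlgEquiv K (Fin 3) (Fin N) (C (X j) * MvPolynomial.map C (b j)) =
      X j * C (b j) := by
    intro j
    rw [map_mul, commAlgEquiv_C_X]
    congr 1
    have h2 : ((commAlgEquiv K (Fin 3) (Fin N)).toAlgHom.comp
        (MvPolynomial.mapAlgHom (IsScalarTower.toAlgHom K K (MvPolynomial (Fin N) K)))) =
        IsScalarTower.toAlgHom K (MvPolynomial (Fin 3) K)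
          (MvPolynomial (Fin N) (MvPolynomial (Fin 3) K)) := by
      refine algHom_ext fun i => ?_
      change commAlgEquiv K (Fin 3) (Fin N) (MvPolynomial.map _ (X i)) = C (X i)
      rw [map_X, commAlgEquiv_X]
    exact AlgHom.congr_fun h2 (b j)
  rw [Finset.sum_congr rfl fun j _ => h1 j]
  exact irr_lin b j0 hj0 hgcd

theorem clear {R F : Type} [CommRing R] [IsDomain R] [Field F] [Algebra R F] [IsFractionRing R F]
    (A : MvPolynomial (Fin 3) F) :
    ∃ c : R, c ≠ 0 ∧ ∃ A' : MvPolynomial (Fin 3) R,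
      MvPolynomial.map (algebraMap R F) A' = C (algebraMap R F c) * A := by
  classical
  let _ : Algebra (MvPolynomial (Fin 3) R) (MvPolynomial (Fin 3) F) :=
    MvPolynomial.algebraMvPolynomial
  have hmap : ∀ x : MvPolynomial (Fin 3) R, algebraMap (MvPolynomial (Fin 3) R)
      (MvPolynomial (Fin 3) F) x = MvPolynomial.map (algebraMap R F) x := fun x => by
    rw [MvPolynomial.algebraMap_def]
  obtain ⟨⟨A', ⟨_, c, hc, rfl⟩⟩, h⟩ := IsLocalization.surj ((nonZeroDivisors R).map
    (C (σ := Fin 3))) A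
  rw [hmap, hmap] at h
  refine ⟨c, nonZeroDivisors.ne_zero hc, A', ?_⟩
  rw [← h, map_C, mul_comm]

/-- **The generic member is irreducible over the field of rational functions.** -/
theorem irr_generic {N : ℕ} (b : Fin N → MvPolynomial (Fin 3) K) {d : ℕ} (hd : 1 ≤ d)
    (hb : ∀ j, (b j).IsHomogeneous d) (j0 : Fin N) (hj0 : b j0 ≠ 0)
    (hgcd : ∀ g, (∀ j, g ∣ b j) → IsUnit g) {F : Type} [Field F] [Algebra (MvPolynomial (Fin N) K) F]
    [IsFractionRing (MvPolynomial (Fin N) K) F] :
    Irreducible (MvPolynomial.map (algebraMap (MvPolynomial (Fin N) K) F)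
      (∑ j, C (X j) * MvPolynomial.map C (b j))) := by
  classical
  obtain ⟨GR, hGR⟩ : ∃ G : MvPolynomial (Fin 3) (MvPolynomial (Fin N) K),
    G = ∑ j, C (X j) * MvPolynomial.map C (b j) := ⟨_, rfl⟩
  have hirr := irr_R b j0 hj0 hgcd
  rw [← hGR] at hirr ⊢
  have hinj : Function.Injective (MvPolynomial.map (σ := Fin 3)
      (algebraMap (MvPolynomial (Fin N) K) F)) :=
    MvPolynomial.map_injective _ (IsFractionRing.injective _ _)
  have hGRh : GR.IsHomogeneous d := by
    rw [hGR]
    refine IsHomogeneous.sum _ _ _ fun j _ => ?_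
    have h2 := (isHomogeneous_C (Fin 3) (X j : MvPolynomial (Fin N) K)).mul
      ((hb j).map (C : K →+* MvPolynomial (Fin N) K))
    rwa [zero_add] at h2
  obtain ⟨G, hG⟩ : ∃ G, G = MvPolynomial.map (algebraMap (MvPolynomial (Fin N) K) F) GR := ⟨_, rfl⟩
  rw [← hG]
  have hG0 : G ≠ 0 := by
    rw [hG]
    intro h0
    exact hirr.ne_zero (hinj (h0.trans (map_zero _).symm))
  have hGh : G.IsHomogeneous d := by
    rw [hG]
    exact hGRh.map _
  have hGd : G.totalDegree = d := hGh.totalDegree hG0
  have hunit : ∀ p : MvPolynomial (Fin 3) F, p ≠ 0 → p.totalDegree = 0 → IsUnit p := by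
    intro p hp0 hp
    obtain ⟨k, hk, rfl⟩ := unit_of_deg hp0 hp
    exact IsUnit.map C (Ne.isUnit hk)
  constructor
  · intro hu
    have := deg_of_unit hu
    omega
  · intro A B hAB
    have hA0 : A ≠ 0 := by
      rintro rfl
      rw [zero_mul] at hAB
      exact hG0 hAB
    have hB0 : B ≠ 0 := by
      rintro rfl
      rw [mul_zero] at hAB
      exact hG0 hAB
    have hsum := totalDegree_mul_of_isDomain hA0 hB0
    rw [← hAB, hGd] at hsum
    obtain ⟨c1, hc1, A', hA'⟩ := clear (R := MvPolynomial (Fin N) K) A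
    obtain ⟨c2, hc2, B', hB'⟩ := clear (R := MvPolynomial (Fin N) K) B
    have h1 : A' * B' = C (c1 * c2) * GR := by
      apply hinj
      rw [map_mul, map_mul, hA', hB', map_C, ← hG, hAB, map_mul, map_mul]
      ring
    have hpr := hirr.prime
    have hdv : GR ∣ A' * B' := ⟨C (c1 * c2), by rw [h1, mul_comm]⟩
    have key : ∀ (A : MvPolynomial (Fin 3) F) (c : MvPolynomial (Fin N) K)
        (A' : MvPolynomial (Fin 3) (MvPolynomial (Fin N) K)), A ≠ 0 → c ≠ 0 →
        MvPolynomial.map (algebraMap (MvPolynomial (Fin N) K) F) A' =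
          C (algebraMap (MvPolynomial (Fin N) K) F c) * A → GR ∣ A' → d ≤ A.totalDegree := by
      rintro A c A' hA0 hc hA' ⟨H, rfl⟩
      rw [map_mul, ← hG] at hA'
      have hc' : algebraMap (MvPolynomial (Fin N) K) F c ≠ 0 := by
        intro h0
        exact hc ((IsFractionRing.injective (MvPolynomial (Fin N) K) F)
          (h0.trans (map_zero _).symm))
      have hne : C (algebraMap (MvPolynomial (Fin N) K) F c) * A ≠ 0 :=
        mul_ne_zero (by rwa [Ne, C_eq_zero]) hA0
      have hH0 : MvPolynomial.map (algebraMap (MvPolynomial (Fin N) K) F) H ≠ 0 :=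
        right_ne_zero_of_mul (hA' ▸ hne)
      have h2 := congrArg totalDegree hA'
      rw [totalDegree_mul_of_isDomain hG0 hH0,
        totalDegree_mul_of_isDomain (by rwa [Ne, C_eq_zero]) hA0, totalDegree_C, hGd] at h2
      omega
    rcases hpr.dvd_or_dvd hdv with h | h
    · have := key A c1 A' hA0 hc1 hA' h
      exact Or.inr (hunit B hB0 (by omega))
    · have := key B c2 B' hB0 hc2 hB' h
      exact Or.inl (hunit A hA0 (by omega))

end Pool.Agent.U810.GI
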