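import Pool.Agent.U810.GI.General

set_option autoImplicit false

/-! The members of symmetric nonspecial linear systems are reduced. -/

namespace Pool.Agent.U810.GI

open MvPolynomial Pool.Agent.H248R5 Pool.Agent.H248R6 Pool.Agent.U810.IR

theorem sqf_of_one {K : Type} [Field K] {n : ℕ} {π v : Fin n → ℕ} (hv : Gc π v)
    (hπ : ∀ k : Fin n → ℕ, Gc π k → ∀ i, 10 * k i ≤ ∑ j, k j) {P : Fin n → Fin 2 → K} {d : ℕ}
    (hE : Exp π P d) (hS : Sy P d) (h1 : Module.finrank K ↥(forms v P d) = 1)
    {G : MvPolynomial (Fin 3) K} (hG : G ∈ forms v P d) (hG0 : G ≠ 0) : Squarefree G := by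
  classical
  have hGh : G.IsHomogeneous d := (mem_forms.1 hG).1
  have hGd : G.totalDegree = d := hGh.totalDegree hG0
  have hline : ∀ x ∈ forms v P d, ∃ c : K, c • G = x := by
    intro x hx
    obtain ⟨c, hc⟩ := (finrank_eq_one_iff_of_nonzero' (⟨G, hG⟩ : ↥(forms v P d))
      (fun h => hG0 (congrArg Subtype.val h))).1 h1 ⟨x, hx⟩
    exact ⟨c, congrArg Subtype.val hc⟩
  by_contra hsq
  unfold Squarefree at hsq
  push Not at hsq
  obtain ⟨x0, hx0, hx0u⟩ := hsq
  let p : ℕ → Prop := fun k => ∃ E : MvPolynomial (Fin 3) K, E * E ∣ G ∧ E.totalDegree = k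
  have hp0 : p 0 := ⟨1, by rw [one_mul]; exact one_dvd G, totalDegree_one⟩
  have hne : ∀ E : MvPolynomial (Fin 3) K, E * E ∣ G → E ≠ 0 := by
    rintro E hEG rfl
    rw [zero_mul] at hEG
    exact hG0 (zero_dvd_iff.1 hEG)
  have hdle : ∀ E : MvPolynomial (Fin 3) K, E * E ∣ G → 2 * E.totalDegree ≤ d := by
    intro E hEG
    have hE0 := hne E hEG
    obtain ⟨Q, hQ⟩ := hEG
    have hQ0 : Q ≠ 0 := by
      rintro rfl
      rw [mul_zero] at hQ
      exact hG0 hQ
    have h2 := totalDegree_mul_of_isDomain (mul_ne_zero hE0 hE0) hQ0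
    rw [← hQ, hGd, totalDegree_mul_of_isDomain hE0 hE0] at h2
    omega
  obtain ⟨E, hEG, hEd⟩ := Nat.findGreatest_spec (Nat.zero_le d) hp0
  have hmax : ∀ E' : MvPolynomial (Fin 3) K, E' * E' ∣ G → E'.totalDegree ≤ E.totalDegree := by
    intro E' hE'
    rw [hEd]
    exact Nat.le_findGreatest (by have := hdle E' hE'; omega) ⟨E', hE', rfl⟩
  have hE0 := hne E hEG
  have hEh : E.IsHomogeneous E.totalDegree :=
    Pool.Agent.Chud.homog_of_dvd hGh hG0 ((dvd_mul_right E E).trans hEG)
  obtain ⟨e, he⟩ : ∃ e, e = E.totalDegree := ⟨_, rfl⟩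
  rw [← he] at hEh hmax
  have he1 : 1 ≤ e := by
    by_contra hcon
    have h2 := hmax x0 hx0
    obtain ⟨k, hk, rfl⟩ := unit_of_deg (hne x0 hx0) (by omega)
    exact hx0u (IsUnit.map C (Ne.isUnit hk))
  have hed := hdle E hEG
  rw [← he] at hed
  obtain ⟨R, hR⟩ := hEG
  have hR0 : R ≠ 0 := by
    rintro rfl
    rw [mul_zero] at hR
    exact hG0 hR
  have hRh : R.IsHomogeneous (d - 2 * e) := by
    have h2 := Pool.Agent.Chud.homog_of_dvd hGh hG0 ⟨E * E, by rw [hR, mul_comm]⟩
    have h3 := totalDegree_mul_of_isDomain (mul_ne_zero hE0 hE0) hR0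
    rw [← hR, hGd, totalDegree_mul_of_isDomain hE0 hE0, ← he] at h3
    rwa [show R.totalDegree = d - 2 * e by omega] at h2
  let u : Fin n → ℕ := fun i => mu P E i
  let w' : Fin n → ℕ := fun i => v i - 2 * u i
  have hEm : E ∈ forms u P e := (mem_forms_iff hEh hE0).2 fun i => le_rfl
  have hmuG : ∀ i, mu P G i = u i + u i + mu P R i := by
    intro i
    rw [hR, mu_mul P (hEh.mul hEh) (mul_ne_zero hE0 hE0) hRh hR0, mu_mul P hEh hE0 hEh hE0]
  have hRm : R ∈ forms w' P (d - 2 * e) := (mem_forms_iff hRh hR0).2 fun i => by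
    have h2 := (mem_forms_iff hGh hG0).1 hG i
    rw [hmuG] at h2
    change v i - 2 * u i ≤ _
    omega
  have hud : ∀ i, u i ≤ d := fun i => (mu_le P hEh hE0 i).trans (by omega)
  have hvd : ∀ i, v i ≤ d := fun i => ((mem_forms_iff hGh hG0).1 hG i).trans (mu_le P hGh hG0 i)
  have hw'd : ∀ i, w' i ≤ d := fun i => (Nat.sub_le _ _).trans (hvd i)
  have hfinE := forms_finite u P e
  have hfinR := forms_finite w' P (d - 2 * e)
  have hntE : Nontrivial ↥(forms u P e) := ⟨⟨⟨E, hEm⟩, 0, fun h => hE0 (congrArg Subtype.val h)⟩⟩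
  have hntR : Nontrivial ↥(forms w' P (d - 2 * e)) :=
    ⟨⟨⟨R, hRm⟩, 0, fun h => hR0 (congrArg Subtype.val h)⟩⟩
  have key : ∀ i j, π i = π j → u j ≤ u i := by
    intro i j hij
    have hvσ : ∀ x, v (Equiv.swap i j x) = v x := by
      intro x
      rcases eq_or_ne x i with rfl | hx
      · rw [Equiv.swap_apply_left]
        exact hv _ _ hij.symm
      · rcases eq_or_ne x j with rfl | hx'
        · rw [Equiv.swap_apply_right]
          exact hv _ _ hij
        · rw [Equiv.swap_apply_of_ne_of_ne hx hx']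
    have s1 := hS u hud e (by omega) (Equiv.swap i j)
    have s2 := hS w' hw'd (d - 2 * e) (Nat.sub_le _ _) (Equiv.swap i j)
    have s3 := Module.finrank_pos (R := K) (M := ↥(forms u P e))
    have s4 := Module.finrank_pos (R := K) (M := ↥(forms w' P (d - 2 * e)))
    have hnt2 : Nontrivial ↥(forms (fun x => u (Equiv.swap i j x)) P e) :=
      Module.nontrivial_of_finrank_pos (R := K) (by omega)
    have hnt3 : Nontrivial ↥(forms (fun x => w' (Equiv.swap i j x)) P (d - 2 * e)) :=
      Module.nontrivial_of_finrank_pos (R := K) (by omega)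
    obtain ⟨⟨E', hE'm⟩, hE'ne⟩ := exists_ne (0 : ↥(forms (fun x => u (Equiv.swap i j x)) P e))
    obtain ⟨⟨R', hR'm⟩, hR'ne⟩ :=
      exists_ne (0 : ↥(forms (fun x => w' (Equiv.swap i j x)) P (d - 2 * e)))
    have hE'0 : E' ≠ 0 := fun h => hE'ne (Subtype.ext h)
    have hR'0 : R' ≠ 0 := fun h => hR'ne (Subtype.ext h)
    have hE'h : E'.IsHomogeneous e := (mem_forms.1 hE'm).1
    have hprod : E' * E' * R' ∈ forms v P d := by
      have h2 := mul_mem (mul_mem hE'm hE'm) hR'm
      rw [show e + e + (d - 2 * e) = d by omega] at h2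
      refine forms_anti (fun x => ?_) h2
      rw [← hvσ x]
      change v _ ≤ u _ + u _ + (v _ - 2 * u _)
      omega
    obtain ⟨c, hc⟩ := hline _ hprod
    have hc0 : c ≠ 0 := by
      rintro rfl
      rw [zero_smul] at hc
      exact mul_ne_zero (mul_ne_zero hE'0 hE'0) hR'0 hc.symm
    have hE'G : E' * E' ∣ G := by
      refine ⟨C c⁻¹ * R', ?_⟩
      have h2 : G = C c⁻¹ * (c • G) := by
        rw [smul_eq_C_mul, ← mul_assoc, ← C_mul, inv_mul_cancel₀ hc0, C_1, one_mul]
      rw [h2, hc]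
      ring
    obtain ⟨x, y, g, hrel, hx, hy⟩ := UniqueFactorizationMonoid.exists_reduced_factors E hE0 E'
    have hg0 : g ≠ 0 := by
      rintro rfl
      rw [zero_mul] at hx
      exact hE0 hx.symm
    have hx0' : x ≠ 0 := by
      rintro rfl
      rw [mul_zero] at hx
      exact hE0 hx.symm
    have hy0 : y ≠ 0 := by
      rintro rfl
      rw [mul_zero] at hy
      exact hE'0 hy.symm
    have hbig : (g * x * y) * (g * x * y) ∣ G := by
      obtain ⟨Q', hQ'⟩ := hE'G
      have h3 : y * y ∣ (x * x) * R := by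
        refine ⟨Q', mul_left_cancel₀ (mul_ne_zero hg0 hg0) ?_⟩
        calc g * g * ((x * x) * R) = (g * x) * (g * x) * R := by ring
          _ = G := by rw [hx, ← hR]
          _ = (g * y) * (g * y) * Q' := by rw [hy, ← hQ']
          _ = g * g * ((y * y) * Q') := by ring
      have hrel2 : IsRelPrime (y * y) (x * x) := by
        have h4 : IsRelPrime (y ^ 2) (x ^ 2) := IsRelPrime.pow hrel.symm
        rwa [sq, sq] at h4
      obtain ⟨w, hw⟩ := hrel2.dvd_of_dvd_mul_left h3
      refine ⟨w, ?_⟩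
      rw [hR, hw, ← hx]
      ring
    have h4 := hmax _ hbig
    rw [hx, totalDegree_mul_of_isDomain hE0 hy0, ← he] at h4
    have h5 : x.totalDegree = 0 := by
      have h6 := totalDegree_mul_of_isDomain hg0 hx0'
      have h7 := totalDegree_mul_of_isDomain hg0 hy0
      rw [hx, ← he] at h6
      rw [hy, hE'h.totalDegree hE'0] at h7
      omega
    obtain ⟨kx, hkx, hkx'⟩ := unit_of_deg hx0' h5
    obtain ⟨ky, hky, hky'⟩ := unit_of_deg hy0 (by omega)
    have h6 : E = C (kx * ky⁻¹) * E' := by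
      rw [← hx, ← hy, hkx', hky', map_mul]
      calc g * C kx = g * C kx * (C ky⁻¹ * C ky) := by
            rw [← map_mul, inv_mul_cancel₀ hky, map_one, mul_one]
        _ = C kx * C ky⁻¹ * (g * C ky) := by ring
    have h7 : E ∈ forms (fun x => u (Equiv.swap i j x)) P e := by
      rw [h6, ← smul_eq_C_mul]
      exact Submodule.smul_mem _ _ hE'm
    have h8 := (mem_forms_iff hEh hE0).1 h7 i
    simp only [Equiv.swap_apply_left] at h8
    exact h8
  have hu : Gc π u := fun i j hij => le_antisymm (key j i hij.symm) (key i j hij)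
  have hw' : Gc π w' := fun i j hij => by
    change v i - 2 * u i = v j - 2 * u j
    rw [hv i j hij, hu i j hij]
  have hB : Gc π (fun i => u i + w' i) := fun i j hij => by
    change u i + w' i = u j + w' j
    rw [hu i j hij, hw' i j hij]
  have hC : Gc π (fun i => u i + (u i + w' i)) := fun i j hij => by
    change u i + (u i + w' i) = u j + (u j + w' j)
    rw [hu i j hij, hw' i j hij]
  have hBm : E * R ∈ forms (fun i => u i + w' i) P (d - e) := by
    have h2 := mul_mem hEm hRm
    rwa [show e + (d - 2 * e) = d - e by omega] at h2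
  have hB0 : E * R ≠ 0 := mul_ne_zero hE0 hR0
  have hBh := (mem_forms.1 hBm).1
  have hBd : ∀ i, u i + w' i ≤ d := fun i =>
    (((mem_forms_iff hBh hB0).1 hBm i).trans (mu_le P hBh hB0 i)).trans (Nat.sub_le _ _)
  have hCm : G ∈ forms (fun i => u i + (u i + w' i)) P d := by
    have h2 := mul_mem hEm hBm
    rw [show e + (d - e) = d by omega] at h2
    rw [hR, mul_assoc]
    exact h2
  have hCd : ∀ i, u i + (u i + w' i) ≤ d := fun i =>
    ((mem_forms_iff hGh hG0).1 hCm i).trans (mu_le P hGh hG0 i)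
  have hP : (fun i a => algebraMap K K (P i a)) = P := rfl
  have n1 := hE K u hu hud e (by omega)
  have n2 := hE K _ hB hBd (d - e) (Nat.sub_le _ _)
  have n3 := hE K _ hC hCd d le_rfl
  rw [hP] at n1 n2 n3
  have hfinB := forms_finite (fun i => u i + w' i) P (d - e)
  have hfinC := forms_finite (fun i => u i + (u i + w' i)) P d
  have hfinV := forms_finite v P d
  have hntB : Nontrivial ↥(forms (fun i => u i + w' i) P (d - e)) :=
    ⟨⟨⟨_, hBm⟩, 0, fun h => hB0 (congrArg Subtype.val h)⟩⟩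
  have hntC : Nontrivial ↥(forms (fun i => u i + (u i + w' i)) P d) :=
    ⟨⟨⟨_, hCm⟩, 0, fun h => hG0 (congrArg Subtype.val h)⟩⟩
  have p1 := Module.finrank_pos (R := K) (M := ↥(forms u P e))
  have p2 := Module.finrank_pos (R := K) (M := ↥(forms (fun i => u i + w' i) P (d - e)))
  have p3 := Module.finrank_pos (R := K) (M := ↥(forms (fun i => u i + (u i + w' i)) P d))
  have p4 : Module.finrank K ↥(forms (fun i => u i + (u i + w' i)) P d) ≤
      Module.finrank K ↥(forms v P d) := by
    refine Submodule.finrank_mono fun x hx => forms_anti (fun i => ?_) hx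
    change v i ≤ u i + (u i + (v i - 2 * u i))
    omega
  have c1 := cross (pos (hπ u hu) he1 (by omega)) (pos (hπ _ hB) (by omega : 1 ≤ d - e) (by omega))
  have c2 := num_fact (n := n) (a := e) (b := d - e) (u := u) (u' := fun i => u i + w' i)
    (f1 := Module.finrank K ↥(forms (fun i => u i + w' i) P (d - e)))
    (f2 := Module.finrank K ↥(forms u P e))
    (N := Module.finrank K ↥(forms (fun i => u i + (u i + w' i)) P d)) (by omega) (by omega)
    (by rw [show e + (d - e) = d by omega]; omega) (by omega)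
  omega

/-- **Theorem**: the general member is reduced. -/
theorem general_sqf {K : Type} [Field K] [CharZero K] {n : ℕ} {π v : Fin n → ℕ} (hv : Gc π v)
    (hπ : ∀ k : Fin n → ℕ, Gc π k → ∀ i, 10 * k i ≤ ∑ j, k j) {P : Fin n → Fin 2 → K} {d : ℕ}
    (hE : Exp π P d) (hS : Sy P d) (h1 : 1 ≤ Module.finrank K ↥(forms v P d)) :
    GeneralMember (forms v P d) Squarefree := by
  rcases Nat.lt_or_ge (Module.finrank K ↥(forms v P d)) 2 with h2 | h2
  · intro N b
    have hN : Module.finrank K ↥(forms v P d) = N := by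
      rw [Module.finrank_eq_card_basis b, Fintype.card_fin]
    let j0 : Fin N := ⟨0, by omega⟩
    refine ⟨X j0, X_ne_zero _, fun t ht => ?_⟩
    rw [eval_X] at ht
    refine sqf_of_one hv hπ hE hS (by omega) (Submodule.sum_mem _ fun j _ =>
      Submodule.smul_mem _ _ (b j).2) ?_
    intro h0
    have hli0 : LinearIndependent K (fun j => (b j : MvPolynomial (Fin 3) K)) :=
      b.linearIndependent.map' (Submodule.subtype _) (Submodule.ker_subtype _)
    exact ht (Fintype.linearIndependent_iff.1 hli0 t h0 j0)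
  · intro N b
    obtain ⟨Φ, hΦ, h⟩ := (general_sym hv hπ hE hS h2).2 N b
    exact ⟨Φ, hΦ, fun t ht => (h t ht).squarefree⟩

end Pool.Agent.U810.GI
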