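import Pool.Agent.U810.GI.Open
import Pool.Agent.U810.GI.Sqf
import Pool.Agent.U810.GI.One
import Pool.Agent.TH648.EN.Raised
import Pool.Agent.H248R6.Open

set_option autoImplicit false

/-! Smoothness in the first degree. -/

namespace Pool.Agent.U810.GI

open MvPolynomial Finset Pool.Agent.H248R5 Pool.Agent.H248R6 Pool.Agent.H932R3
  Pool.Agent.TH442.NF Pool.Agent.Y939.NC Pool.Agent.U810.IR

/-- vectors with several groups: one multiplicity raised -/
theorem groups_raised {n : ℕ} {v : Fin n → ℕ}
    (h : ∀ i, 320000 * (univ.image v).card ≤ (univ.filter fun j => v j = v i).card) (k : Fin n)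
    (e : ℕ) {K : Type} [Field K] [CharZero K] {P : Fin n → Fin 2 → K}
    (hP : AlgebraicIndependent ℚ (fun ij : Fin n × Fin 2 => P ij.1 ij.2)) :
    ExpDim K (Function.update v k (v k + 1)) P e := by
  classical
  obtain ⟨w, hw⟩ : ∃ w, w = Function.update v k (v k + 1) := ⟨_, rfl⟩
  rw [← hw]
  have hwk : w k = v k + 1 := by rw [hw, Function.update_self]
  have hwne : ∀ i, i ≠ k → w i = v i := fun i hi => by rw [hw, Function.update_of_ne hi]
  have hvw : ∀ i, v i ≤ w i := by
    intro i
    by_cases hi : i = k
    · rw [hi, hwk]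
      omega
    · rw [hwne i hi]
  obtain ⟨i1, -, hi1⟩ := exists_max_image univ v ⟨k, mem_univ k⟩
  have hmax : ∀ i, w i ≤ v i1 + 1 := by
    intro i
    by_cases hi : i = k
    · rw [hi, hwk]
      have := hi1 k (mem_univ _)
      omega
    · rw [hwne i hi]
      have := hi1 i (mem_univ _)
      omega
  by_cases hz : v i1 = 0
  · exact simple_exp (fun i => by have := hmax i; omega) hP e
  obtain ⟨S, hS⟩ : ∃ S : Finset (Fin n), S = univ.filter fun i => w i ≠ 0 := ⟨_, rfl⟩
  have hkS : k ∈ S := by
    rw [hS]
    simp [hwk]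
  have hcard : 0 < S.card := card_pos.2 ⟨k, hkS⟩
  have hmemS : ∀ x, x ∈ S → w x ≠ 0 := fun x hx => by
    rw [hS] at hx
    exact (mem_filter.1 hx).2
  refine almost_exp reg150 ⟨S.card, (S.orderEmbOfFin rfl).toEmbedding, ?_, ?_⟩ hP e
  · refine Or.inr (Or.inr (Or.inl ⟨hcard, fun j => ?_, v i1 + 1, (univ.image v).card + 1,
      fun j => hmax _, ?_, ?_⟩))
    · exact Nat.one_le_iff_ne_zero.2 (hmemS _ (orderEmbOfFin_mem S rfl j))
    · have h1 : (univ.image fun j : Fin S.card => w ((S.orderEmbOfFin rfl).toEmbedding j)) ⊆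
          insert (v k + 1) (univ.image v) := by
        intro x hx
        obtain ⟨j, -, rfl⟩ := mem_image.1 hx
        by_cases hj : (S.orderEmbOfFin rfl).toEmbedding j = k
        · rw [hj, hwk]
          exact mem_insert_self _ _
        · rw [hwne _ hj]
          exact mem_insert_of_mem (mem_image_of_mem _ (mem_univ _))
      exact (card_le_card h1).trans (card_insert_le _ _)
    · have h1 := h i1
      have h2 : ∑ j : Fin S.card, w ((S.orderEmbOfFin rfl).toEmbedding j) ^ 2 =
          ∑ i ∈ S, w i ^ 2 := by
        have h3 : S = univ.map (S.orderEmbOfFin rfl).toEmbedding := by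
          ext x
          constructor
          · intro hx
            have h4 : x ∈ Set.range (S.orderEmbOfFin rfl) := by
              rw [range_orderEmbOfFin]
              exact hx
            obtain ⟨j, hj⟩ := h4
            exact mem_map.2 ⟨j, mem_univ _, hj⟩
          · intro hx
            obtain ⟨j, -, rfl⟩ := mem_map.1 hx
            exact orderEmbOfFin_mem S rfl j
        conv_rhs => rw [h3, sum_map]
      rw [h2]
      have h4 : (univ.filter fun j => v j = v i1) ⊆ S := by
        intro j hj
        rw [hS, mem_filter]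
        refine ⟨mem_univ _, ?_⟩
        have h5 := hvw j
        rw [(mem_filter.1 hj).2] at h5
        omega
      have h6 : 1 ≤ (univ.image v).card := card_pos.2 ⟨v k, mem_image_of_mem _ (mem_univ _)⟩
      have h7 : (v i1 + 1) ^ 2 ≤ 4 * v i1 ^ 2 := by
        have : 1 ≤ v i1 := Nat.one_le_iff_ne_zero.2 hz
        nlinarith
      calc 40000 * ((univ.image v).card + 1) * (v i1 + 1) ^ 2 ≤
          40000 * (2 * (univ.image v).card) * (4 * v i1 ^ 2) :=
            Nat.mul_le_mul (by omega) h7
        _ = 320000 * (univ.image v).card * v i1 ^ 2 := by ring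
        _ ≤ (univ.filter fun j => v j = v i1).card * v i1 ^ 2 := Nat.mul_le_mul_right _ h1
        _ = ∑ j ∈ univ.filter (fun j => v j = v i1), v j ^ 2 := by
          rw [← smul_eq_mul, ← sum_const]
          refine sum_congr rfl fun j hj => ?_
          rw [(mem_filter.1 hj).2]
        _ ≤ ∑ j ∈ univ.filter (fun j => v j = v i1), w j ^ 2 :=
          sum_le_sum fun j _ => Nat.pow_le_pow_left (hvw j) 2
        _ ≤ ∑ i ∈ S, w i ^ 2 := sum_le_sum_of_subset h4
  · intro i hi
    have h1 : i ∉ S := by
      intro h2
      apply hi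
      have h4 : i ∈ Set.range (S.orderEmbOfFin rfl) := by
        rw [range_orderEmbOfFin]
        exact h2
      obtain ⟨j, hj⟩ := h4
      exact ⟨j, hj⟩
    rw [hS] at h1
    simp only [mem_filter, mem_univ, true_and, not_not] at h1
    omega

/-- one multiplicity raised -/
theorem grouped_raised {n : ℕ} (hn21 : n ≠ 21) {v : Fin n → ℕ} (hv : Grouped v) (k : Fin n)
    (e : ℕ) {K : Type} [Field K] [CharZero K] {P : Fin n → Fin 2 → K}
    (hP : AlgebraicIndependent ℚ (fun ij : Fin n × Fin 2 => P ij.1 ij.2)) :
    ExpDim K (Function.update v k (v k + 1)) P e := by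
  rcases hv with ⟨hn, h⟩ | h
  · have hvk : v = fun _ => v k := funext fun i => h i k
    by_cases hz : v k = 0
    · refine simple_exp (fun i => ?_) hP e
      by_cases hi : i = k
      · subst hi
        rw [Function.update_self]
        omega
      · rw [Function.update_of_ne hi, h i k]
        omega
    by_cases h37 : 37 ≤ n
    · obtain ⟨F, hF, hF'⟩ := Pool.Agent.TH648.EN.exp_raised h37 (m := v k) (by omega) k (L := K)
      have h1 := hF' P (fun h0 => hF (hP.eq_zero_of_aeval_eq_zero F h0)) e
      have h2 : Function.update v k (v k + 1) = Function.update (fun _ => v k) k (v k + 1) := by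
        conv_lhs => rw [hvk]
      rw [h2]
      exact h1
    · have hreg : Regular 150 (Function.update v k (v k + 1)) := by
        refine Or.inr (Or.inl ⟨Or.inr (Or.inr ?_), v k, by omega, fun i => ?_⟩)
        · have h3 : n = 36 ∨ n = 13 ∨ n = 16 := by omega
          rcases h3 with rfl | rfl | rfl
          · exact ⟨0, Or.inr (Or.inl (by norm_num))⟩
          · exact ⟨0, Or.inr (Or.inr (by norm_num))⟩
          · exact ⟨0, Or.inl (by norm_num)⟩
        · by_cases hi : i = k
          · subst hi
            right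
            rw [Function.update_self]
          · left
            rw [Function.update_of_ne hi, h i k]
      obtain ⟨F, hF, hF'⟩ := reg150 n _ hreg K
      exact hF' P (fun h0 => hF (hP.eq_zero_of_aeval_eq_zero F h0)) e
  · exact groups_raised h k e hP

/-- the conditions of the multiplicities lowered by one, one degree lower -/
theorem grouped_lower {n d : ℕ} {v : Fin n → ℕ} (hv : Grouped v)
    (hd : ∑ i, (v i + 1).choose 2 ≤ (d + 3).choose 2) {K : Type} [Field K] [CharZero K]
    {P : Fin n → Fin 2 → K}
    (hP : AlgebraicIndependent ℚ (fun ij : Fin n × Fin 2 => P ij.1 ij.2)) :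
    Function.Surjective (ev (fun i => v i - 1) P d) := by
  classical
  rcases Nat.lt_or_ge ((d + 2).choose 2) (∑ i, (v i + 1).choose 2) with h1 | h1
  · have hG : Gc v (fun i => v i - 1) := fun i j hij => by
      change v i - 1 = v j - 1
      rw [hij]
    refine surj_of (grouped_exp hv _ hG d hP) ?_ fun i => le_rfl
    have h2 : ∑ i, (v i + 1).choose 2 = ∑ i, (v i).choose 2 + ∑ i, v i := by
      rw [← sum_add_distrib]
      refine sum_congr rfl fun i _ => ?_
      have := Nat.choose_succ_succ (v i) 1
      simp only [Nat.choose_one_right] at this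
      rw [show v i + 1 = (v i).succ from rfl, this]
      exact Nat.add_comm _ _
    have h3 : ∑ i, ((v i - 1) + 1).choose 2 = ∑ i, (v i).choose 2 := by
      refine sum_congr rfl fun i _ => ?_
      rcases v i with _ | x <;> rfl
    have h4 : (d + 3).choose 2 = (d + 2) + (d + 2).choose 2 := by
      have := Nat.choose_succ_succ (d + 2) 1
      simp only [Nat.choose_one_right] at this
      exact this
    rw [h3]
    -- the sum of the multiplicities
    obtain ⟨s, hs⟩ : ∃ s, s = ∑ i, v i := ⟨_, rfl⟩
    have h5 : ∀ i, 10 * v i ≤ s := by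
      rw [hs]
      exact grouped_ten hv v (fun i j h => h)
    have h6 : 10 * ∑ i, 2 * (v i + 1).choose 2 ≤ s * s + 10 * s := by
      rw [mul_sum]
      calc ∑ i, 10 * (2 * (v i + 1).choose 2) ≤ ∑ i, (s * v i + 10 * v i) := by
            refine sum_le_sum fun i _ => ?_
            have h7 : 2 * (v i + 1).choose 2 = (v i + 1) * v i := by
              rw [Nat.choose_two_right, Nat.add_sub_cancel, Nat.mul_div_cancel']
              exact (Nat.even_mul_succ_self (v i)).two_dvd.trans (by rw [mul_comm])
            rw [h7]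
            have h8 := h5 i
            nlinarith [Nat.mul_le_mul_right (v i) h8]
        _ = s * s + 10 * s := by
            rw [sum_add_distrib, ← mul_sum, ← mul_sum, ← hs]
    have h9 : 2 * (d + 2).choose 2 = (d + 2) * (d + 1) := by
      rw [Nat.choose_two_right, show d + 2 - 1 = d + 1 by omega, Nat.mul_div_cancel']
      exact (Nat.even_mul_succ_self (d + 1)).two_dvd.trans (by rw [mul_comm])
    have h10 : d + 2 ≤ s := by
      by_contra hcon
      push Not at hcon
      have h11 : 2 * ∑ i, (v i + 1).choose 2 = ∑ i, 2 * (v i + 1).choose 2 := mul_sum _ _ _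
      have h12 : s * (s + 1) ≤ (d + 1) * (d + 2) := Nat.mul_le_mul (by omega) (by omega)
      nlinarith
    omega
  · exact surj_of (grouped_exp hv v (fun i j h => h) d hP) h1 fun i => Nat.sub_le _ _

theorem sum_raised {n : ℕ} (v : Fin n → ℕ) (k : Fin n) :
    ∑ i, (Function.update v k (v k + 1) i + 1).choose 2 = ∑ i, (v i + 1).choose 2 + (v k + 1) := by
  classical
  rw [← add_sum_erase univ (fun i => (Function.update v k (v k + 1) i + 1).choose 2) (mem_univ k),
    ← add_sum_erase univ (fun i => (v i + 1).choose 2) (mem_univ k)]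
  have h1 : ∑ i ∈ univ.erase k, (Function.update v k (v k + 1) i + 1).choose 2 =
      ∑ i ∈ univ.erase k, (v i + 1).choose 2 := by
    refine sum_congr rfl fun i hi => ?_
    rw [Function.update_of_ne (ne_of_mem_erase hi)]
  have h2 : (v k + 1 + 1).choose 2 = (v k + 1) + (v k + 1).choose 2 := by
    have := Nat.choose_succ_succ (v k + 1) 1
    simp only [Nat.choose_one_right] at this
    exact this
  rw [h1, Function.update_self, h2]
  ring

theorem update_le {n : ℕ} {u v : Fin n → ℕ} (hu : ∀ i, u i ≤ v i) (k i : Fin n) :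
    Function.update u k (u k + 1) i ≤ Function.update v k (v k + 1) i := by
  by_cases hi : i = k
  · subst hi
    rw [Function.update_self, Function.update_self]
    have := hu i
    omega
  · rw [Function.update_of_ne hi, Function.update_of_ne hi]
    exact hu i

/-- **Smoothness** if the dimension is larger than the largest multiplicity. -/
theorem grouped_smooth {n e : ℕ} {v : Fin n → ℕ} (hn21 : n ≠ 21) (hv : Grouped v)
    (hd : ∀ k, ∑ i, (v i + 1).choose 2 + v k < (e + 3).choose 2) {K : Type} [Field K]
    [CharZero K] :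
    ∃ F : MvPolynomial (Fin n × Fin 2) ℚ, F ≠ 0 ∧ ∀ P : Fin n → Fin 2 → K,
      aeval (fun ij : Fin n × Fin 2 => P ij.1 ij.2) F ≠ 0 → ∀ u : Fin n → ℕ, (∀ i, u i ≤ v i) →
      Module.finrank K ↥(forms u P (e + 1)) + ∑ i, (u i + 1).choose 2 = (e + 3).choose 2 ∧
        GeneralMember (forms u P (e + 1)) (SmoothMember u P) := by
  classical
  have hraise : ∀ k, ∑ i, (Function.update v k (v k + 1) i + 1).choose 2 ≤ (e + 1 + 2).choose 2 := by
    intro k
    rw [sum_raised]
    exact hd k
  have hle : ∑ i, (v i + 1).choose 2 ≤ (e + 1 + 2).choose 2 := by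
    rcases Nat.eq_zero_or_pos n with h0 | h0
    · subst h0
      simp
    · exact (Nat.le_add_right _ (v ⟨0, h0⟩)).trans (hd ⟨0, h0⟩).le
  choose F1 hF1 hF1' using fun k : Fin n => to_open (d := e + 1)
    (w := Function.update v k (v k + 1)) fun {K} _ _ P hP => grouped_raised hn21 hv k (e + 1) hP
  obtain ⟨F2, hF2, hF2'⟩ := to_open (d := e + 1) (w := v) fun {K} _ _ P hP =>
    grouped_exp hv v (fun i j h => h) (e + 1) hP
  have hex : ∀ u : Fin n → ℕ, ∃ F : MvPolynomial (Fin n × Fin 2) ℚ, F ≠ 0 ∧
      ((∀ i, u i ≤ v i) → ∀ P : Fin n → Fin 2 → K,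
      aeval (fun ij : Fin n × Fin 2 => P ij.1 ij.2) F ≠ 0 →
      Module.finrank K ↥(forms u P (e + 1)) + ∑ i, (u i + 1).choose 2 = (e + 3).choose 2 ∧
        GeneralMember (forms u P (e + 1)) (SmoothMember u P)) := by
    intro u
    by_cases hu : ∀ i, u i ≤ v i
    · obtain ⟨F, hF, hF'⟩ := open_main (K := K) (n := n) (e := e) (w := u)
        (fun L _ _ P hP => ⟨fun k => surj_of (grouped_raised hn21 hv k (e + 1) hP) (hraise k)
          (update_le hu k), surj_of (grouped_exp hv v (fun i j h => h) (e + 1) hP) hle hu,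
          surj_mono (fun i => Nat.sub_le_sub_right (hu i) 1) (grouped_lower hv hle hP)⟩)
        ⟨F2 * ∏ k, F1 k, mul_ne_zero hF2 (prod_ne_zero_iff.2 fun k _ => hF1 k), fun P hP => by
          rw [map_mul, map_prod] at hP
          exact ⟨fun k => surj_of (hF1' k (L := K) P
            (prod_ne_zero_iff.1 (right_ne_zero_of_mul hP) k (mem_univ k))) (hraise k)
            (update_le hu k), surj_of (hF2' (L := K) P (left_ne_zero_of_mul hP)) hle hu⟩⟩
      exact ⟨F, hF, fun _ => hF'⟩
    · exact ⟨1, one_ne_zero, fun h => absurd h hu⟩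
  choose F hF hF' using hex
  refine ⟨∏ u ∈ Fintype.piFinset fun i => range (v i + 1), F u,
    prod_ne_zero_iff.2 fun u _ => hF u, fun P hP u hu => ?_⟩
  rw [map_prod, prod_ne_zero_iff] at hP
  exact hF' u hu P (hP u (Fintype.mem_piFinset.2 fun i => mem_range.2 (Nat.lt_succ_of_le (hu i))))

end Pool.Agent.U810.GI
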