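import Mathlib

set_option autoImplicit false

/-! A factorisation of a generic member specialises to a factorisation of every member. -/

namespace Pool.Agent.U810.GI

open MvPolynomial Finset

/-- Gauss' lemma for a valuation subring: the products of the coefficients of `A` and `B` lie in it
if the coefficients of `A * B` do. -/
theorem gauss_val {Ω : Type} [Field Ω] {σ : Type} (V : ValuationSubring Ω) {A B : MvPolynomial σ Ω}
    (h : ∀ l, coeff l (A * B) ∈ V) (μ ν : σ →₀ ℕ) : coeff μ A * coeff ν B ∈ V := by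
  classical
  by_cases hA : A = 0
  · rw [hA, coeff_zero, zero_mul]
    exact V.zero_mem
  by_cases hB : B = 0
  · rw [hB, coeff_zero, mul_zero]
    exact V.zero_mem
  have key : ∀ C : MvPolynomial σ Ω, C ≠ 0 → ∃ (c : Ω) (D : MvPolynomial σ V), c ≠ 0 ∧
      (∀ κ, coeff κ C = c * (coeff κ D : V)) ∧
      MvPolynomial.map (IsLocalRing.residue V) D ≠ 0 := by
    intro C hC
    have hne : C.support.Nonempty := support_nonempty.2 hC
    obtain ⟨κ0, hκ0, hmax⟩ := exists_max_image C.support (fun κ => V.valuation (coeff κ C)) hne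
    have hc0 : coeff κ0 C ≠ 0 := mem_support_iff.1 hκ0
    have hle : ∀ κ, (coeff κ C) / coeff κ0 C ∈ V := by
      intro κ
      rw [← V.valuation_le_one_iff, map_div₀]
      by_cases hκ : coeff κ C = 0
      · rw [hκ, map_zero, zero_div]
        exact zero_le_one
      · exact div_le_one_of_le₀ (hmax κ (mem_support_iff.2 hκ)) zero_le
    obtain ⟨D, hD⟩ : ∃ D : MvPolynomial σ V, ∀ κ, coeff κ D =
        (⟨coeff κ C / coeff κ0 C, hle κ⟩ : V) := by
      refine ⟨∑ κ ∈ C.support, monomial κ (⟨coeff κ C / coeff κ0 C, hle κ⟩ : V), fun κ => ?_⟩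
      rw [coeff_sum]
      simp only [coeff_monomial]
      rw [Finset.sum_ite_eq']
      split_ifs with h
      · rfl
      · have h1 : coeff κ C = 0 := by
          by_contra h2
          exact h (mem_support_iff.2 h2)
        apply Subtype.ext
        change (0 : Ω) = coeff κ C / coeff κ0 C
        rw [h1, zero_div]
    refine ⟨coeff κ0 C, D, hc0, fun κ => ?_, fun h0 => ?_⟩
    · rw [hD]
      change coeff κ C = coeff κ0 C * (coeff κ C / coeff κ0 C)
      field_simp
    · have h1 := congrArg (coeff κ0) h0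
      rw [coeff_map, hD, coeff_zero] at h1
      have h2 : (⟨coeff κ0 C / coeff κ0 C, hle κ0⟩ : V) = 1 := by
        apply Subtype.ext
        change coeff κ0 C / coeff κ0 C = 1
        exact div_self hc0
      rw [h2, map_one] at h1
      exact one_ne_zero h1
  obtain ⟨a, A1, ha, hA1, hA2⟩ := key A hA
  obtain ⟨b, B1, hb, hB1, hB2⟩ := key B hB
  have hprod : MvPolynomial.map (IsLocalRing.residue V) (A1 * B1) ≠ 0 := by
    rw [map_mul]
    exact mul_ne_zero hA2 hB2
  obtain ⟨l, hl⟩ : ∃ l, coeff l (MvPolynomial.map (IsLocalRing.residue V) (A1 * B1)) ≠ 0 := by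
    by_contra hcon
    push Not at hcon
    exact hprod (MvPolynomial.ext _ _ fun l => by rw [hcon l, coeff_zero])
  rw [coeff_map] at hl
  have hu : IsUnit (coeff l (A1 * B1)) := (IsLocalRing.residue_ne_zero_iff_isUnit _).1 hl
  obtain ⟨u, hu'⟩ := hu
  have hcoef : coeff l (A * B) = a * b * ((coeff l (A1 * B1) : V) : Ω) := by
    rw [coeff_mul, coeff_mul]
    push_cast
    rw [Finset.mul_sum]
    refine Finset.sum_congr rfl fun p _ => ?_
    rw [hA1, hB1]
    ring
  have hab : a * b ∈ V := by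
    have h1 := V.mul_mem _ _ (h l) ((u⁻¹ : Vˣ) : V).2
    have h2 : coeff l (A * B) * (((u⁻¹ : Vˣ) : V) : Ω) = a * b := by
      rw [hcoef, ← hu', mul_assoc]
      have h3 : ((u : V) : Ω) * (((u⁻¹ : Vˣ) : V) : Ω) = 1 := by
        have h4 : (u : V) * ((u⁻¹ : Vˣ) : V) = 1 := u.mul_inv
        exact congrArg Subtype.val h4
      rw [h3, mul_one]
    rwa [h2] at h1
  rw [hA1, hB1]
  have h5 : a * ((coeff μ A1 : V) : Ω) * (b * ((coeff ν B1 : V) : Ω)) =
      a * b * (((coeff μ A1 : V) : Ω) * ((coeff ν B1 : V) : Ω)) := by ring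
  rw [h5]
  exact V.mul_mem _ _ hab (V.mul_mem _ _ (coeff μ A1).2 (coeff ν B1).2)

/-- The products of the coefficients of `A` and `B` are integral over every ring which contains the
coefficients of `A * B`. -/
theorem gauss_int {R Ω : Type} [CommRing R] [Field Ω] [Algebra R Ω] {σ : Type}
    {A B : MvPolynomial σ Ω} (h : ∀ l, coeff l (A * B) ∈ (algebraMap R Ω).range) (μ ν : σ →₀ ℕ) :
    IsIntegral R (coeff μ A * coeff ν B) := by
  have h1 : coeff μ A * coeff ν B ∈
      (integralClosure (Subring.closure ((algebraMap R Ω).range : Set Ω)) Ω).toSubring := by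
    rw [← iInf_valuationSubring_superset, Subring.mem_iInf]
    intro V
    exact gauss_val V.1 (fun l => V.2 (h l)) μ ν
  have h2 : IsIntegral (Subring.closure ((algebraMap R Ω).range : Set Ω))
      (coeff μ A * coeff ν B) := h1
  obtain ⟨p, hp, hp'⟩ := h2
  have hlift : p.map (algebraMap (Subring.closure ((algebraMap R Ω).range : Set Ω)) Ω) ∈
      Polynomial.lifts (algebraMap R Ω) := by
    rw [Polynomial.lifts_iff_coeff_lifts]
    intro n
    rw [Polynomial.coeff_map]
    have h3 : ((p.coeff n : Subring.closure ((algebraMap R Ω).range : Set Ω)) : Ω) ∈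
        Subring.closure ((algebraMap R Ω).range : Set Ω) := (p.coeff n).2
    have h4 : Subring.closure ((algebraMap R Ω).range : Set Ω) = (algebraMap R Ω).range :=
      Subring.closure_eq _
    exact h4.le h3
  obtain ⟨q, hq1, -, hq3⟩ := Polynomial.lifts_and_natDegree_eq_and_monic hlift (hp.map _)
  refine ⟨q, hq3, ?_⟩
  rw [← Polynomial.eval_map, hq1, Polynomial.eval_map]
  exact hp'

/-- Homomorphisms to an algebraically closed field extend to integral extensions. -/
theorem extend_hom {R S K : Type} [CommRing R] [CommRing S] [Algebra R S] [Algebra.IsIntegral R S]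
    (hinj : Function.Injective (algebraMap R S)) [Field K] [IsAlgClosed K] (f : R →+* K)
    (hf : Function.Surjective f) :
    ∃ g : S →+* K, g.comp (algebraMap R S) = f := by
  classical
  have hmax : (RingHom.ker f).IsMaximal := RingHom.ker_isMaximal_of_surjective f hf
  obtain ⟨Q, hQ, hQ'⟩ := Ideal.exists_ideal_over_maximal_of_isIntegral (S := S) (RingHom.ker f) (by
    rw [(RingHom.injective_iff_ker_eq_bot (algebraMap R S)).1 hinj]
    exact bot_le)
  let _ : Field (S ⧸ Q) := Ideal.Quotient.field Q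
  have hker : ∀ x ∈ RingHom.ker f, (Ideal.Quotient.mk Q).comp (algebraMap R S) x = 0 := by
    intro x hx
    rw [← hQ', Ideal.mem_comap] at hx
    exact Ideal.Quotient.eq_zero_iff_mem.2 hx
  let e : R ⧸ RingHom.ker f ≃+* K := RingHom.quotientKerEquivOfSurjective hf
  let h1 : R ⧸ RingHom.ker f →+* S ⧸ Q := Ideal.Quotient.lift _ _ hker
  let h2 : K →+* S ⧸ Q := h1.comp e.symm.toRingHom
  let _ : Algebra K (S ⧸ Q) := h2.toAlgebra
  have hcomp : ∀ r : R, algebraMap K (S ⧸ Q) (f r) = Ideal.Quotient.mk Q (algebraMap R S r) := by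
    intro r
    change h1 (e.symm (f r)) = _
    have h3 : e.symm (f r) = Ideal.Quotient.mk (RingHom.ker f) r := by
      rw [RingEquiv.symm_apply_eq]
      rfl
    rw [h3]
    rfl
  have hint : Algebra.IsIntegral K (S ⧸ Q) := by
    refine ⟨fun y => ?_⟩
    obtain ⟨s, rfl⟩ := Ideal.Quotient.mk_surjective y
    obtain ⟨p, hp, hp'⟩ := Algebra.IsIntegral.isIntegral (R := R) s
    refine ⟨p.map f, hp.map _, ?_⟩
    rw [Polynomial.eval₂_map]
    have h4 : (algebraMap K (S ⧸ Q)).comp f = (Ideal.Quotient.mk Q).comp (algebraMap R S) :=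
      RingHom.ext hcomp
    rw [h4, ← Polynomial.hom_eval₂, hp', map_zero]
  have halg : Algebra.IsAlgebraic K (S ⧸ Q) := inferInstance
  let g : (S ⧸ Q) →ₐ[K] K := IsAlgClosed.lift
  refine ⟨(g : (S ⧸ Q) →+* K).comp (Ideal.Quotient.mk Q), RingHom.ext fun r => ?_⟩
  change g (Ideal.Quotient.mk Q (algebraMap R S r)) = f r
  rw [← hcomp, AlgHom.commutes]
  rfl

/-- **Specialisation of factorisations.** -/
theorem special {R Ω K : Type} [CommRing R] [Field Ω] [Algebra R Ω]
    (hinj : Function.Injective (algebraMap R Ω)) [Field K] [IsAlgClosed K] (f : R →+* K)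
    (hf : Function.Surjective f) {σ : Type} {a a' : ℕ} {A B : MvPolynomial σ Ω}
    (hA : A.IsHomogeneous a) (hB : B.IsHomogeneous a') {g : MvPolynomial σ R}
    (hg : A * B = MvPolynomial.map (algebraMap R Ω) g) (h0 : MvPolynomial.map f g ≠ 0) :
    ∃ A' B' : MvPolynomial σ K, A'.IsHomogeneous a ∧ B'.IsHomogeneous a' ∧
      A' * B' = MvPolynomial.map f g := by
  classical
  have hint : ∀ μ ν : σ →₀ ℕ, coeff μ A * coeff ν B ∈ integralClosure R Ω := fun μ ν =>
    gauss_int (fun l => by rw [hg, coeff_map]; exact ⟨_, rfl⟩) μ ν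
  obtain ⟨θ, hθ⟩ := extend_hom (R := R) (S := integralClosure R Ω) (K := K) (fun x y hxy =>
    hinj (congrArg Subtype.val hxy)) f hf
  obtain ⟨M, hM⟩ : ∃ M : (σ →₀ ℕ) → (σ →₀ ℕ) → K, ∀ μ ν, M μ ν =
      θ ⟨coeff μ A * coeff ν B, hint μ ν⟩ := ⟨_, fun _ _ => rfl⟩
  have hrank : ∀ μ ν μ' ν', M μ ν * M μ' ν' = M μ ν' * M μ' ν := by
    intro μ ν μ' ν'
    rw [hM, hM, hM, hM, ← map_mul, ← map_mul]
    congr 1
    apply Subtype.ext
    change coeff μ A * coeff ν B * (coeff μ' A * coeff ν' B) =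
      coeff μ A * coeff ν' B * (coeff μ' A * coeff ν B)
    ring
  have hsum : ∀ l, f (coeff l g) = ∑ p ∈ antidiagonal l, M p.1 p.2 := by
    intro l
    have h1 : f (coeff l g) = θ (algebraMap R (integralClosure R Ω) (coeff l g)) := by
      rw [← hθ]
      rfl
    have h2 : algebraMap R (integralClosure R Ω) (coeff l g) = ∑ p ∈ antidiagonal l,
        (⟨coeff p.1 A * coeff p.2 B, hint p.1 p.2⟩ : integralClosure R Ω) := by
      apply Subtype.ext
      have h3 := congrArg (coeff l) hg
      rw [coeff_map, coeff_mul] at h3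
      rw [AddSubmonoidClass.coe_finsetSum]
      exact h3.symm
    rw [h1, h2, map_sum]
    exact Finset.sum_congr rfl fun p _ => (hM _ _).symm
  have hAz : ∀ μ ν, coeff μ A = 0 → M μ ν = 0 := by
    intro μ ν h
    rw [hM]
    have h1 : (⟨coeff μ A * coeff ν B, hint μ ν⟩ : integralClosure R Ω) = 0 := by
      apply Subtype.ext
      change coeff μ A * coeff ν B = 0
      rw [h, zero_mul]
    rw [h1, map_zero]
  have hBz : ∀ μ ν, coeff ν B = 0 → M μ ν = 0 := by
    intro μ ν h
    rw [hM]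
    have h1 : (⟨coeff μ A * coeff ν B, hint μ ν⟩ : integralClosure R Ω) = 0 := by
      apply Subtype.ext
      change coeff μ A * coeff ν B = 0
      rw [h, mul_zero]
    rw [h1, map_zero]
  obtain ⟨μ0, ν0, h00⟩ : ∃ μ0 ν0, M μ0 ν0 ≠ 0 := by
    by_contra hcon
    push Not at hcon
    refine h0 (MvPolynomial.ext _ _ fun l => ?_)
    rw [coeff_map, hsum, coeff_zero]
    exact Finset.sum_eq_zero fun p _ => hcon _ _
  obtain ⟨A', hA'⟩ : ∃ A' : MvPolynomial σ K, ∀ μ, coeff μ A' = M μ ν0 := by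
    refine ⟨∑ μ ∈ A.support, monomial μ (M μ ν0), fun μ => ?_⟩
    rw [coeff_sum]
    simp only [coeff_monomial]
    rw [Finset.sum_ite_eq']
    split_ifs with h
    · rfl
    · exact (hAz _ _ (notMem_support_iff.1 h)).symm
  obtain ⟨B', hB'⟩ : ∃ B' : MvPolynomial σ K, ∀ ν, coeff ν B' = M μ0 ν / M μ0 ν0 := by
    refine ⟨∑ ν ∈ B.support, monomial ν (M μ0 ν / M μ0 ν0), fun ν => ?_⟩
    rw [coeff_sum]
    simp only [coeff_monomial]
    rw [Finset.sum_ite_eq']
    split_ifs with h
    · rfl
    · rw [hBz _ _ (notMem_support_iff.1 h), zero_div]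
  refine ⟨A', B', ?_, ?_, ?_⟩
  · intro μ hμ
    rw [hA'] at hμ
    exact hA fun h => hμ (hAz _ _ h)
  · intro ν hν
    rw [hB'] at hν
    exact hB fun h => hν (by rw [hBz _ _ h, zero_div])
  · ext l
    rw [coeff_map, coeff_mul, hsum]
    refine Finset.sum_congr rfl fun p _ => ?_
    rw [hA', hB', mul_div_assoc', hrank p.1 ν0 μ0 p.2, mul_div_cancel_right₀ _ h00]

end Pool.Agent.U810.GI
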